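import Pool.Agent.Helper40.MT.Defs
import Pool.Agent.Helper85.MU.Stmts

/-!
# Motivic Mumford-Tate: exact statements of the modules (design: /team-store/mt_helper40.md)
-/

set_option autoImplicit false

open NumberField MU

namespace MT

/-- the Lie algebra (over `K₀`) of the Zariski closure of the group `X` -/
def LieZ {K₀ : Type} [Field K₀] {n : ℕ} (X : Subgroup (Matrix.GeneralLinearGroup (Fin n) K₀)) :
    Submodule K₀ (Matrix (Fin n) (Fin n) K₀) where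
  carrier := {A | ∀ f : MvPolynomial (Fin n × Fin n) K₀,
    (∀ x ∈ X, ev (x : Matrix (Fin n) (Fin n) K₀) f = 0) →
      ∑ i, ∑ j, A i j * ev (1 : Matrix (Fin n) (Fin n) K₀) (MvPolynomial.pderiv (i, j) f) = 0}
  add_mem' := by
    intro A B hA hB f hf
    simp only [Matrix.add_apply, add_mul, Finset.sum_add_distrib, hA f hf, hB f hf, add_zero]
  zero_mem' := by
    intro f _
    simp
  smul_mem' := by
    intro c A hA f hf
    simp only [Matrix.smul_apply, smul_eq_mul, mul_assoc, ← Finset.mul_sum, hA f hf, mul_zero]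

/-! ## A. Arithmetic -/

/-- IRM: irreducibility (from MU: TRI, PRO, LIN; adapt BAL and IRR; all characters to the power
`e`). -/
def ST_IRM : Prop :=
  ∀ (F : Type) [Field F] [NumberField F] (S : Finset ℕ), (∀ p ∈ S, p.Prime) →
    ∀ (n w : ℕ) (h : Fin n → ℕ) (M : PMot F S n w h) (l : ℕ) [Fact l.Prime] (p₀ : ℕ), p₀.Prime →
      p₀ ≠ l → M.MaxUnip l p₀ → IsIrr (mat (M.ρ l))

/-! ## B. Zariski closures -/

/-- ZAR: the Lie algebra of the Zariski closure. -/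
def ST_ZAR : Prop :=
  ∀ (K₀ : Type) [Field K₀] (n : ℕ) (X : Subgroup (Matrix.GeneralLinearGroup (Fin n) K₀)),
    (∀ A ∈ LieZ X, ∀ B ∈ LieZ X, A * B - B * A ∈ LieZ X) ∧
    (∀ y : Matrix.GeneralLinearGroup (Fin n) K₀, (∀ x ∈ X, y * x * y⁻¹ ∈ X) →
      ∀ A ∈ LieZ X, (y : Matrix (Fin n) (Fin n) K₀) * A *
        ((y⁻¹ : Matrix.GeneralLinearGroup (Fin n) K₀) : Matrix (Fin n) (Fin n) K₀) ∈
          LieZ X) ∧
    (∀ A ∈ LieZ X, ∀ f : MvPolynomial (Fin n × Fin n) K₀,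
      (∀ x ∈ X, ev (x : Matrix (Fin n) (Fin n) K₀) f = 0) →
        ∀ x ∈ X, ev (x : Matrix (Fin n) (Fin n) K₀) (ldv A f) = 0) ∧
    (∀ ψ : Matrix (Fin n) (Fin n) K₀, ψ.det ≠ 0 →
      (∀ x ∈ X, ∃ c : K₀, (x : Matrix (Fin n) (Fin n) K₀).transpose * ψ *
        (x : Matrix (Fin n) (Fin n) K₀) = c • ψ) →
      ∀ A ∈ LieZ X, ∃ c : K₀, A.transpose * ψ + ψ * A = c • ψ) ∧
    (∀ (K : Type) [Field K] [Algebra K₀ K],
      ∀ g ∈ ZC (X : Set (Matrix.GeneralLinearGroup (Fin n) K₀)) K,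
      ∀ g' ∈ ZC (X : Set (Matrix.GeneralLinearGroup (Fin n) K₀)) K,
        g * g' ∈ ZC (X : Set (Matrix.GeneralLinearGroup (Fin n) K₀)) K)

/-- LOG: the logarithm of a unipotent matrix. -/
def ST_LOG : Prop :=
  ∀ (K₀ : Type) [Field K₀] [CharZero K₀] (n : ℕ)
    (X : Subgroup (Matrix.GeneralLinearGroup (Fin n) K₀)), ∀ t ∈ X, ∀ (x : Matrix.GeneralLinearGroup
      (Fin n) K₀) (q : ℕ), ((t : Matrix (Fin n) (Fin n) K₀) - 1) ^ n = 0 →
      ((t : Matrix (Fin n) (Fin n) K₀) - 1) ^ (n - 1) ≠ 0 → x * t * x⁻¹ = t ^ q →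
      ∃ N ∈ LieZ X, N ^ n = 0 ∧ N ^ (n - 1) ≠ 0 ∧
        (x : Matrix (Fin n) (Fin n) K₀) * N = (q : K₀) • (N * (x : Matrix (Fin n) (Fin n) K₀))

/-- GRD: the grading element, from the powers of a Frobenius element `x`
(`x` has the eigenvalues `a q^j`, and `a² q^(n-1) q^w = 1`). -/
def ST_GRD : Prop :=
  ∀ (K₀ : Type) [Field K₀] [CharZero K₀] (n w q : ℕ) (ψ N : Matrix (Fin n) (Fin n) K₀)
    (X : Subgroup (Matrix.GeneralLinearGroup (Fin n) K₀)), ∀ x ∈ X, 2 ≤ q → ψ.det ≠ 0 →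
      (q : K₀) ^ w • ((x : Matrix (Fin n) (Fin n) K₀).transpose * ψ *
        (x : Matrix (Fin n) (Fin n) K₀)) = ψ → N ^ n = 0 → N ^ (n - 1) ≠ 0 →
      (x : Matrix (Fin n) (Fin n) K₀) * N = (q : K₀) • (N * (x : Matrix (Fin n) (Fin n) K₀)) →
      ∃ D ∈ LieZ X, D * N - N * D = N

/-- TEN: tensors and Zariski closures. -/
def ST_TEN : Prop :=
  (∀ (K₀ : Type) [Field K₀] [CharZero K₀] (n a b : ℕ)
    (X : Set (Matrix.GeneralLinearGroup (Fin n) K₀)) (t : Tensor n a b ℚ),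
      (∀ x ∈ X, act x (t.base K₀) = t.base K₀) → ∀ (K : Type) [Field K] [Algebra K₀ K],
        ∀ g ∈ ZC X K, act g (t.base K) = t.base K) ∧
  (∀ (K : Type) [Field K] [CharZero K] (n : ℕ) (ψ : Matrix (Fin n) (Fin n) ℚ), ψ.det ≠ 0 →
    ∀ g : Matrix.GeneralLinearGroup (Fin n) K,
      g ∈ Sim ψ K ↔ act g ((polTen ψ).base K) = (polTen ψ).base K)

/-- SIM: from isometries to similitudes. -/
def ST_SIM : Prop :=
  ∀ (K₀ : Type) [Field K₀] [CharZero K₀] (n : ℕ) (ψ : Matrix (Fin n) (Fin n) K₀)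
    (X : Subgroup (Matrix.GeneralLinearGroup (Fin n) K₀)), ψ.det ≠ 0 →
    (ψ.transpose = -ψ ∨ (ψ.transpose = ψ ∧ Odd n)) →
    (∀ x ∈ X, ∃ c : K₀, (x : Matrix (Fin n) (Fin n) K₀).transpose * ψ *
      (x : Matrix (Fin n) (Fin n) K₀) = c • ψ) →
    {c : K₀ | ∃ x ∈ X, (x : Matrix (Fin n) (Fin n) K₀).transpose * ψ *
      (x : Matrix (Fin n) (Fin n) K₀) = c • ψ}.Infinite →
    (∀ (K : Type) [Field K] [Algebra K₀ K] (g : Matrix.GeneralLinearGroup (Fin n) K),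
      (g : Matrix (Fin n) (Fin n) K).transpose * ψ.map (algebraMap K₀ K) *
        (g : Matrix (Fin n) (Fin n) K) = ψ.map (algebraMap K₀ K) →
      (g : Matrix (Fin n) (Fin n) K).det = 1 →
        g ∈ ZC (X : Set (Matrix.GeneralLinearGroup (Fin n) K₀)) K) →
    ∀ (K : Type) [Field K] [Algebra K₀ K] (g : Matrix.GeneralLinearGroup (Fin n) K) (c : K),
      (g : Matrix (Fin n) (Fin n) K).transpose * ψ.map (algebraMap K₀ K) *
        (g : Matrix (Fin n) (Fin n) K) = c • ψ.map (algebraMap K₀ K) →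
          g ∈ ZC (X : Set (Matrix.GeneralLinearGroup (Fin n) K₀)) K

/-! ## C. Linear algebra -/

/-- ISO: a set of matrices closed under multiplication which contains all isometries `g` with
`det (1 + g) ≠ 0` contains all isometries of determinant `1`. -/
def ST_ISM : Prop :=
  ∀ (K : Type) [Field K] [CharZero K] (n : ℕ) (ψ : Matrix (Fin n) (Fin n) K)
    (Z : Set (Matrix.GeneralLinearGroup (Fin n) K)), ψ.det ≠ 0 →
    (ψ.transpose = -ψ ∨ ψ.transpose = ψ) → (∀ g ∈ Z, ∀ g' ∈ Z, g * g' ∈ Z) →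
    (∀ g : Matrix.GeneralLinearGroup (Fin n) K, (g : Matrix (Fin n) (Fin n) K).transpose * ψ *
      (g : Matrix (Fin n) (Fin n) K) = ψ → (1 + (g : Matrix (Fin n) (Fin n) K)).det ≠ 0 →
        g ∈ Z) →
    ∀ g : Matrix.GeneralLinearGroup (Fin n) K, (g : Matrix (Fin n) (Fin n) K).transpose * ψ *
      (g : Matrix (Fin n) (Fin n) K) = ψ → (g : Matrix (Fin n) (Fin n) K).det = 1 → g ∈ Z

/-- the Lie algebra `gl_2` acting on homogeneous polynomials of degree `n - 1` in two variables: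
spanned by `1` and by `sl_2` -/
def sl2 (K : Type) [Field K] (n : ℕ) : Submodule K (Matrix (Fin n) (Fin n) K) :=
  Submodule.span K {1,
    Matrix.of fun i j : Fin n => if (i : ℕ) = (j : ℕ) + 1 then 1 else 0,
    Matrix.diagonal fun i : Fin n => (n : K) - 1 - 2 * ((i : ℕ) : K),
    Matrix.of fun i j : Fin n => if (i : ℕ) + 1 = (j : ℕ) then
      ((j : ℕ) : K) * ((n : K) - ((j : ℕ) : K)) else 0}

/-- LIE: Lie algebras of similitudes with a regular nilpotent element. -/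
def ST_LIE : Prop :=
  ∀ (K : Type) [Field K] [CharZero K] (n : ℕ) (ψ N D : Matrix (Fin n) (Fin n) K)
    (a : Submodule K (Matrix (Fin n) (Fin n) K)), n ≠ 7 → ψ.det ≠ 0 →
    (ψ.transpose = -ψ ∨ ψ.transpose = ψ) → (∀ A ∈ a, ∀ B ∈ a, A * B - B * A ∈ a) →
    (∀ A ∈ a, ∃ c : K, A.transpose * ψ + ψ * A = c • ψ) → N ∈ a → N ^ n = 0 → N ^ (n - 1) ≠ 0 →
    D ∈ a → D * N - N * D = N →
    (∀ W : Submodule K (Fin n → K), (∀ A ∈ a, ∀ v ∈ W, A.mulVec v ∈ W) → W = ⊥ ∨ W = ⊤) →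
    (∀ A : Matrix (Fin n) (Fin n) K, A.transpose * ψ + ψ * A = 0 → A ∈ a) ∨
      (4 ≤ n ∧ ∃ P : Matrix.GeneralLinearGroup (Fin n) K, ∀ A ∈ a,
        ((P⁻¹ : Matrix.GeneralLinearGroup (Fin n) K) : Matrix (Fin n) (Fin n) K) * A *
          (P : Matrix (Fin n) (Fin n) K) ∈ sl2 K n)

/-- CORE: LIE, the criteria, and pseudo-reflections (also for `n = 7`). Here `G` is the whole image
of the Galois group, which normalises `a` and is irreducible. -/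
def ST_CORE : Prop :=
  ∀ (K : Type) [Field K] [CharZero K] (n : ℕ) (ψ N D : Matrix (Fin n) (Fin n) K)
    (a : Submodule K (Matrix (Fin n) (Fin n) K)) (G : Subgroup (Matrix.GeneralLinearGroup (Fin n) K)),
    ψ.det ≠ 0 → (ψ.transpose = -ψ ∨ ψ.transpose = ψ) → (∀ A ∈ a, ∀ B ∈ a, A * B - B * A ∈ a) →
    (∀ A ∈ a, ∃ c : K, A.transpose * ψ + ψ * A = c • ψ) → N ∈ a → N ^ n = 0 → N ^ (n - 1) ≠ 0 →
    D ∈ a → D * N - N * D = N →
    (∀ g ∈ G, ∃ c : K, (g : Matrix (Fin n) (Fin n) K).transpose * ψ *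
      (g : Matrix (Fin n) (Fin n) K) = c • ψ) →
    (∀ g ∈ G, ∀ A ∈ a, (g : Matrix (Fin n) (Fin n) K) * A *
      ((g⁻¹ : Matrix.GeneralLinearGroup (Fin n) K) : Matrix (Fin n) (Fin n) K) ∈ a) →
    (∀ W : Submodule K (Fin n → K), (∀ g ∈ G, ∀ v ∈ W,
      (g : Matrix (Fin n) (Fin n) K).mulVec v ∈ W) → W = ⊥ ∨ W = ⊤) →
    (n ≠ 7 ∨ ∃ g ∈ G, ((g : Matrix (Fin n) (Fin n) K) - 1).rank = 1) →
    (n ≤ 3 ∨ (∃ g ∈ G, (g : Matrix (Fin n) (Fin n) K) ≠ 1 ∧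
        ((g : Matrix (Fin n) (Fin n) K) - 1) ^ (n - 1) = 0) ∨
      (∃ g ∈ G, ((g : Matrix (Fin n) (Fin n) K) - 1).rank = 1) ∨
      (∃ g ∈ G, ∀ (C : Type) [Field C] [Algebra K C] (c r : C),
        (g : Matrix (Fin n) (Fin n) K).charpoly.map (algebraMap K C) ≠
          ∏ j : Fin n, (Polynomial.X - Polynomial.C (c * r ^ (j : ℕ)))) ∨
      (∃ (C : Type) (_ : Field C) (_ : IsAlgClosed C) (_ : Algebra K C)
        (T : Matrix (Fin n) (Fin n) C),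
        T ∈ Submodule.span C {B | ∃ A ∈ a, B = A.map (algebraMap K C)} ∧ ∀ c d : C,
          T.charpoly ≠ ∏ j : Fin n, (Polynomial.X - Polynomial.C (c + d * (j : ℕ))))) →
    ∀ A : Matrix (Fin n) (Fin n) K, A.transpose * ψ + ψ * A = 0 → A ∈ a

/-! ## D. The theorem -/

/-- MAIN: the theorem. -/
def ST_MAIN : Prop :=
  ∀ (F : Type) [Field F] [NumberField F] (S : Finset ℕ), (∀ p ∈ S, p.Prime) →
    ∀ (n w : ℕ) (h : Fin n → ℕ) (M : PMot F S n w h), 0 < w →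
    ∀ (l : ℕ) [Fact l.Prime] (p₀ : ℕ), p₀.Prime → p₀ ≠ l → M.MaxUnip l p₀ →
      (n ≠ 7 ∨ ∃ g : Gal F, (mat (M.ρ l) g - 1).rank = 1) → M.Crit l →
      ∀ (K : Type) [Field K] [Algebra ℚ_[l] K],
        (∀ H : Subgroup (Gal F), IsOpen (H : Set (Gal F)) → ZC (M.ρ l '' H) K = Sim M.ψ K) ∧
        M.Gl l K = M.Gmot K ∧ M.Gl0 l K = M.Gmot K ∧ M.Gmot K = Sim M.ψ K ∧
        M.Gsigma K ⊆ M.Gl0 l K ∧
        ((∀ (a b : ℕ) (t : Tensor n a b ℚ), M.IsHodge t → ∃ H : Subgroup (Gal F),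
          IsOpen (H : Set (Gal F)) ∧ ∀ g ∈ H, act (M.ρ l g) (t.base ℚ_[l]) = t.base ℚ_[l]) →
            M.Gl0 l K = M.Gsigma K)

end MT
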