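import Pool.Agent.Helper40.MT.Stmts

/-!
# Translation of the criteria
-/

set_option autoImplicit false

open NumberField MU

namespace MT

/-- two families with the same multiset of values differ by a permutation -/
theorem exists_perm_of_map_eq {α : Type} {n : ℕ} (a b : Fin n → α)
    (h : Multiset.map a Finset.univ.val = Multiset.map b Finset.univ.val) :
    ∃ e : Equiv.Perm (Fin n), ∀ j, a (e j) = b j := by
  classical
  have hcard : ∀ x, Fintype.card {j // b j = x} = Fintype.card {j // a j = x} := by
    intro x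
    have h1 := congrArg (Multiset.count x) h
    rw [Multiset.count_map, Multiset.count_map] at h1
    rw [Fintype.card_subtype, Fintype.card_subtype]
    have h2 : ∀ c : Fin n → α, Multiset.card (Multiset.filter (fun j => x = c j) Finset.univ.val) =
        (Finset.univ.filter fun j => c j = x).card := by
      intro c
      rw [← Finset.filter_val, Finset.card_val]
      congr 1
      ext j
      simp [eq_comm]
    rw [← h2 a, ← h2 b]
    exact h1.symm
  have he : ∀ x, Nonempty ({j // b j = x} ≃ {j // a j = x}) := fun x =>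
    ⟨Fintype.equivOfCardEq (hcard x)⟩
  have e := fun x => (he x).some
  refine ⟨(Equiv.sigmaFiberEquiv b).symm.trans
    ((Equiv.sigmaCongrRight e).trans (Equiv.sigmaFiberEquiv a)), ?_⟩
  intro j
  simp only [Equiv.trans_apply, Equiv.sigmaFiberEquiv, Equiv.coe_fn_mk, Equiv.coe_fn_symm_mk,
    Equiv.sigmaCongrRight_apply, Sigma.map]
  exact (e (b j) ⟨j, rfl⟩).2

/-- the field generated by two algebraic elements embeds in `ℂ` -/
theorem exists_emb {Q C : Type} [Field Q] [Field C] [Algebra Q C] [Algebra Q ℂ] (c r : C)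
    (hc : IsIntegral Q c) (hr : IsIntegral Q r) :
    ∃ (L : Type) (_ : Field L) (i : L →+* C) (_ : L →+* ℂ) (c' r' : L), i c' = c ∧ i r' = r := by
  have halg := IntermediateField.isAlgebraic_adjoin_pair hc hr
  have hcL : c ∈ IntermediateField.adjoin Q ({c, r} : Set C) :=
    IntermediateField.subset_adjoin Q _ (by simp)
  have hrL : r ∈ IntermediateField.adjoin Q ({c, r} : Set C) :=
    IntermediateField.subset_adjoin Q _ (by simp)
  let φ : IntermediateField.adjoin Q ({c, r} : Set C) →ₐ[Q] ℂ := IsAlgClosed.lift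
  exact ⟨IntermediateField.adjoin Q ({c, r} : Set C), inferInstance, algebraMap _ C, φ,
    ⟨c, hcL⟩, ⟨r, hrL⟩, rfl, rfl⟩

/-- a polynomial over the integers with roots in geometric progression in some field of
characteristic `0` has roots in geometric progression in `ℂ` -/
theorem gp_transfer {n : ℕ} (P : Polynomial ℤ) (C : Type) [Field C] [CharZero C] (c r : C)
    (h : P.map (Int.castRingHom C) =
      ∏ j : Fin n, (Polynomial.X - Polynomial.C (c * r ^ (j : ℕ)))) :
    ∃ c' r' : ℂ, P.map (Int.castRingHom ℂ) =
      ∏ j : Fin n, (Polynomial.X - Polynomial.C (c' * r' ^ (j : ℕ))) := by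
  classical
  -- it suffices to treat algebraic `c`, `r`
  have key : ∀ c r : C, IsIntegral ℚ c → IsIntegral ℚ r → P.map (Int.castRingHom C) =
      ∏ j : Fin n, (Polynomial.X - Polynomial.C (c * r ^ (j : ℕ))) →
      ∃ c' r' : ℂ, P.map (Int.castRingHom ℂ) =
        ∏ j : Fin n, (Polynomial.X - Polynomial.C (c' * r' ^ (j : ℕ))) := by
    intro c r hc hr h
    obtain ⟨L, _, i, φ, c', r', hc', hr'⟩ := exists_emb c r hc hr
    have h1 : P.map (Int.castRingHom L) =
        ∏ j : Fin n, (Polynomial.X - Polynomial.C (c' * r' ^ (j : ℕ))) := by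
      apply Polynomial.map_injective i i.injective
      rw [Polynomial.map_map, Polynomial.map_prod]
      rw [show i.comp (Int.castRingHom L) = Int.castRingHom C from RingHom.ext_int _ _, h]
      refine Finset.prod_congr rfl fun j _ => ?_
      rw [Polynomial.map_sub, Polynomial.map_X, Polynomial.map_C, i.map_mul, i.map_pow, hc', hr']
    refine ⟨φ c', φ r', ?_⟩
    have h2 := congrArg (Polynomial.map φ) h1
    rw [Polynomial.map_map, Polynomial.map_prod,
      show φ.comp (Int.castRingHom L) = Int.castRingHom ℂ from RingHom.ext_int _ _] at h2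
    rw [h2]
    refine Finset.prod_congr rfl fun j _ => ?_
    rw [Polynomial.map_sub, Polynomial.map_X, Polynomial.map_C, φ.map_mul, φ.map_pow]
  have hroot : ∀ x : C, (P.map (Int.castRingHom C)).IsRoot x → IsIntegral ℚ x := by
    intro x hx
    have hP : P.map (Int.castRingHom C) ≠ 0 := by
      rw [h]
      exact Finset.prod_ne_zero_iff.mpr fun j _ => Polynomial.X_sub_C_ne_zero _
    rw [← isAlgebraic_iff_isIntegral]
    refine ⟨P.map (Int.castRingHom ℚ), ?_, ?_⟩
    · intro h0
      apply hP
      have h3 : P = 0 := by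
        apply Polynomial.map_injective (Int.castRingHom ℚ) Int.cast_injective
        rw [h0, Polynomial.map_zero]
      rw [h3, Polynomial.map_zero]
    · rw [Polynomial.aeval_def, Polynomial.eval₂_eq_eval_map, Polynomial.map_map,
        show (algebraMap ℚ C).comp (Int.castRingHom ℚ) = Int.castRingHom C from
          RingHom.ext_int _ _]
      exact hx
  have hrt : ∀ j : Fin n, IsIntegral ℚ (c * r ^ (j : ℕ)) := by
    intro j
    apply hroot
    rw [h, Polynomial.IsRoot, Polynomial.eval_prod]
    exact Finset.prod_eq_zero (Finset.mem_univ j) (by simp)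
  by_cases hn : n = 0
  · subst hn
    exact key 1 1 isIntegral_one isIntegral_one (by rw [h]; simp)
  by_cases hc0 : c = 0
  · exact key 0 1 isIntegral_zero isIntegral_one (by rw [h]; simp [hc0])
  have hc : IsIntegral ℚ c := by
    have := hrt ⟨0, Nat.pos_of_ne_zero hn⟩
    simpa using this
  by_cases hn1 : n = 1
  · subst hn1
    exact key c 1 hc isIntegral_one (by rw [h]; simp)
  have hr : IsIntegral ℚ r := by
    have h1 := hrt ⟨1, by omega⟩
    simp only [pow_one] at h1
    have h2 : r = c⁻¹ * (c * r) := by rw [← mul_assoc, inv_mul_cancel₀ hc0, one_mul]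
    rw [h2]
    exact hc.inv.mul h1
  exact key c r hc hr h

/-- a matrix over an extension killed by linear forms over the ground field is in the span of the
common kernel of the forms -/
theorem mem_span_of_forms {K : Type} [Field K] {n : ℕ} {I : Type}
    (d : I → Fin n → Fin n → K) (W : Submodule K (Matrix (Fin n) (Fin n) K))
    (hW : ∀ A, (∀ f, ∑ i, ∑ j, A i j * d f i j = 0) → A ∈ W)
    (C : Type) [Field C] [Algebra K C] (T : Matrix (Fin n) (Fin n) C)
    (hT : ∀ f, ∑ i, ∑ j, T i j * algebraMap K C (d f i j) = 0) :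
    T ∈ Submodule.span C {B | ∃ A ∈ W, B = A.map (algebraMap K C)} := by
  classical
  let b := Module.Basis.ofVectorSpace K C
  let Tk : Module.Basis.ofVectorSpaceIndex K C → Matrix (Fin n) (Fin n) K := fun k =>
    Matrix.of fun i j => b.repr (T i j) k
  have hTk : ∀ k, Tk k ∈ W := by
    intro k
    apply hW
    intro f
    have h1 := congrArg (fun x => b.repr x k) (hT f)
    simp only [map_sum, map_zero, Finsupp.coe_zero, Pi.zero_apply, Finsupp.coe_finset_sum,
      Finset.sum_apply] at h1
    rw [← h1]
    refine Finset.sum_congr rfl fun i _ => Finset.sum_congr rfl fun j _ => ?_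
    have h2 : T i j * algebraMap K C (d f i j) = d f i j • T i j := by
      rw [Algebra.smul_def, mul_comm]
    rw [h2, map_smul, Finsupp.smul_apply, smul_eq_mul, mul_comm]
    rfl
  let s : Finset (Module.Basis.ofVectorSpaceIndex K C) :=
    Finset.univ.biUnion fun i : Fin n => Finset.univ.biUnion fun j : Fin n => (b.repr (T i j)).support
  have hTs : T = ∑ k ∈ s, b k • (Tk k).map (algebraMap K C) := by
    ext i j
    rw [Matrix.sum_apply]
    have h3 : T i j = ∑ k ∈ (b.repr (T i j)).support, (b.repr (T i j) k) • b k := by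
      conv_lhs => rw [← b.linearCombination_repr (T i j)]
      rfl
    rw [h3, Finset.sum_subset (s₂ := s)]
    · refine Finset.sum_congr rfl fun k _ => ?_
      rw [Matrix.smul_apply, Matrix.map_apply, Algebra.smul_def, smul_eq_mul, mul_comm]
      rfl
    · intro k hk
      rw [Finset.mem_biUnion]
      refine ⟨i, Finset.mem_univ _, ?_⟩
      rw [Finset.mem_biUnion]
      exact ⟨j, Finset.mem_univ _, hk⟩
    · intro k _ hk
      rw [Finsupp.notMem_support_iff.mp hk, zero_smul]
  rw [hTs]
  refine Submodule.sum_mem _ fun k _ => Submodule.smul_mem _ _ (Submodule.subset_span ?_)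
  exact ⟨Tk k, hTk k, rfl⟩

/-- a diagonalisable matrix with characteristic polynomial in arithmetic progression -/
theorem ap_transfer {n : ℕ} (h : Fin n → ℕ) (C : Type) [Field C] [CharZero C]
    (P : Matrix.GeneralLinearGroup (Fin n) C) (c d : C)
    (hc : ((P : Matrix (Fin n) (Fin n) C) * Matrix.diagonal (fun j => (h j : C)) *
        ((P⁻¹ : Matrix.GeneralLinearGroup (Fin n) C) : Matrix (Fin n) (Fin n) C)).charpoly =
      ∏ j : Fin n, (Polynomial.X - Polynomial.C (c + d * (j : ℕ)))) :
    ∃ (e : Equiv.Perm (Fin n)) (a b : ℚ), ∀ j : Fin n, (h (e j) : ℚ) = a + b * (j : ℕ) := by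
  rw [Matrix.coe_units_inv, Matrix.charpoly_units_conj, Matrix.charpoly_diagonal] at hc
  have h1 := congrArg Polynomial.roots hc
  have hroots : ∀ a : Fin n → C, (∏ j : Fin n, (Polynomial.X - Polynomial.C (a j))).roots =
      Multiset.map a Finset.univ.val := by
    intro a
    have h2 : ∏ j : Fin n, (Polynomial.X - Polynomial.C (a j)) =
        (Multiset.map (fun x => Polynomial.X - Polynomial.C x)
          (Multiset.map a Finset.univ.val)).prod := by
      rw [Multiset.map_map]
      rfl
    rw [h2, Polynomial.roots_multiset_prod_X_sub_C]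
  rw [hroots, hroots] at h1
  obtain ⟨e, he⟩ := exists_perm_of_map_eq _ _ h1
  refine ⟨e, ?_⟩
  by_cases hn : n ≤ 1
  · by_cases hn0 : n = 0
    · subst hn0
      exact ⟨0, 0, fun j => j.elim0⟩
    · have hn1 : n = 1 := by omega
      subst hn1
      refine ⟨h (e 0), 0, fun j => ?_⟩
      rw [Subsingleton.elim j 0]
      simp
  · have e0 := he ⟨0, by omega⟩
    have e1 := he ⟨1, by omega⟩
    simp only [Nat.cast_zero, mul_zero, add_zero, Nat.cast_one, mul_one] at e0 e1
    refine ⟨h (e ⟨0, by omega⟩), (h (e ⟨1, by omega⟩) : ℚ) - h (e ⟨0, by omega⟩), fun j => ?_⟩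
    have ej := he j
    have h4 : d = (h (e ⟨1, by omega⟩) : C) - h (e ⟨0, by omega⟩) := by
      rw [e1, e0]
      ring
    rw [h4, ← e0] at ej
    have h5 : (((h (e j) : ℚ)) : C) = ((((h (e ⟨0, by omega⟩) : ℚ)) +
        ((h (e ⟨1, by omega⟩) : ℚ) - h (e ⟨0, by omega⟩)) * ((j : ℕ) : ℚ) : ℚ) : C) := by
      push_cast
      exact ej
    exact_mod_cast h5

end MT
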