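import Pool.Agent.Helper40.MT.Stmts

/-!
# Algebraic preliminaries for the main theorem
-/

set_option autoImplicit false

open NumberField MU

namespace MT

section unip

variable {K : Type} [Field K] [CharZero K] {n : ℕ}

/-- the powers of a unipotent matrix with a single Jordan block -/
theorem unip_pow (u : Matrix (Fin n) (Fin n) K) (h1 : (u - 1) ^ n = 0) (h2 : (u - 1) ^ (n - 1) ≠ 0)
    (j : ℕ) (hj : 1 ≤ j) : (u ^ j - 1) ^ n = 0 ∧ (u ^ j - 1) ^ (n - 1) ≠ 0 := by
  set s : Matrix (Fin n) (Fin n) K := ∑ i ∈ Finset.range j, u ^ i with hs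
  have hgeom : s * (u - 1) = u ^ j - 1 := by rw [hs, geom_sum_mul]
  have hcomm : Commute s (u - 1) := by
    have hsu : Commute s u := by
      rw [hs]
      exact Commute.sum_left _ _ _ fun i _ => (Commute.refl u).pow_left i
    exact hsu.sub_right (Commute.one_right s)
  have hunit : IsUnit s := by
    -- `s = j + (u - 1) r`
    obtain ⟨r, hr, hsr⟩ : ∃ r : Matrix (Fin n) (Fin n) K, Commute (u - 1) r ∧
        s = (j : K) • (1 : Matrix (Fin n) (Fin n) K) + (u - 1) * r := by
      refine ⟨∑ i ∈ Finset.range j, ∑ k ∈ Finset.range i, u ^ k, ?_, ?_⟩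
      · apply Commute.sum_right
        intro i _
        apply Commute.sum_right
        intro k _
        exact (((Commute.refl u).sub_left (Commute.one_left u))).pow_right k
      · rw [hs, Finset.mul_sum]
        have h3 : ∀ i ∈ Finset.range j, u ^ i = 1 + (u - 1) * ∑ k ∈ Finset.range i, u ^ k := by
          intro i _
          rw [mul_geom_sum]
          abel
        rw [Finset.sum_congr rfl h3, Finset.sum_add_distrib, Finset.sum_const, Finset.card_range,
          ← Nat.cast_smul_eq_nsmul K]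
    have hnil : IsNilpotent ((u - 1) * r) := by
      refine ⟨n, ?_⟩
      rw [hr.mul_pow, h1, zero_mul]
    have hj0 : (j : K) ≠ 0 := Nat.cast_ne_zero.mpr (by omega)
    have hu1 : IsUnit ((j : K) • (1 : Matrix (Fin n) (Fin n) K)) := by
      refine ⟨⟨(j : K) • 1, (j : K)⁻¹ • 1, ?_, ?_⟩, rfl⟩
      · rw [smul_mul_smul_comm, mul_inv_cancel₀ hj0, one_mul, one_smul]
      · rw [smul_mul_smul_comm, inv_mul_cancel₀ hj0, one_mul, one_smul]
    rw [hsr]
    refine IsNilpotent.isUnit_add_left_of_commute hnil hu1 ?_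
    exact (Commute.one_right _).smul_right _
  have hpow : ∀ k : ℕ, (u ^ j - 1) ^ k = s ^ k * (u - 1) ^ k := by
    intro k
    rw [← hgeom, hcomm.mul_pow]
  constructor
  · rw [hpow, h1, mul_zero]
  · rw [hpow]
    intro h0
    apply h2
    have hk : IsUnit (s ^ (n - 1)) := hunit.pow _
    obtain ⟨v, hv⟩ := hk
    rw [← hv] at h0
    have h5 : ((v⁻¹ : (Matrix (Fin n) (Fin n) K)ˣ) : Matrix (Fin n) (Fin n) K) *
        ((v : Matrix (Fin n) (Fin n) K) * (u - 1) ^ (n - 1)) = 0 := by rw [h0, mul_zero]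
    rwa [← mul_assoc, Units.inv_mul, one_mul] at h5

end unip

end MT
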