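import Pool.Agent.Helper8.MT.PSR

/-!
# The parity of the rank of an orthogonal motive with maximally unipotent monodromy
-/

set_option autoImplicit false

namespace MT

open Psr Matrix

/-- a regular nilpotent matrix preserves a symmetric form only in odd dimension -/
theorem parity {K : Type} [Field K] [CharZero K] {n : ℕ} (psi N : Matrix (Fin n) (Fin n) K)
    (hdet : psi.det ≠ 0) (hsym : psi.transpose = psi)
    (hN : N.transpose * psi + psi * N = 0) (h1 : N ^ n = 0) (h2 : N ^ (n - 1) ≠ 0) : Odd n := by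
  have hn : 0 < n := by
    rcases Nat.eq_zero_or_pos n with h | h
    · subst h
      exact absurd (Subsingleton.elim _ _) h2
    · exact h
  have hu : IsUnit psi := (Matrix.isUnit_iff_isUnit_det psi).mpr (isUnit_iff_ne_zero.mpr hdet)
  by_contra hodd
  have hm : Odd (n - 1) := by
    rw [Nat.not_odd_iff_even] at hodd
    obtain ⟨k, hk⟩ := hodd
    exact ⟨k - 1, by omega⟩
  have hskew : ∀ x y : Fin n → K, pf psi (N *ᵥ x) y = - pf psi x (N *ᵥ y) := by
    intro x y
    have h3 : (N.transpose * psi + psi * N) *ᵥ y = 0 := by rw [hN, Matrix.zero_mulVec]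
    have h4 : x ⬝ᵥ ((N.transpose * psi + psi * N) *ᵥ y) = 0 := by rw [h3, dotProduct_zero]
    rw [Matrix.add_mulVec, dotProduct_add, ← Matrix.mulVec_mulVec, ← Matrix.mulVec_mulVec,
      dotProduct_mulVec, Matrix.vecMul_transpose] at h4
    unfold pf
    exact eq_neg_of_add_eq_zero_left h4
  have hskewk : ∀ (k : ℕ) (x y : Fin n → K),
      pf psi (N ^ k *ᵥ x) y = (-1) ^ k * pf psi x (N ^ k *ᵥ y) := by
    intro k
    induction k with
    | zero =>
        intro x y
        simp
    | succ k ih =>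
        intro x y
        have h5 : N ^ (k + 1) *ᵥ y = N *ᵥ (N ^ k *ᵥ y) := by
          rw [pow_succ', ← Matrix.mulVec_mulVec]
        have h6 : N ^ (k + 1) *ᵥ x = N *ᵥ (N ^ k *ᵥ x) := by
          rw [pow_succ', ← Matrix.mulVec_mulVec]
        have h7 : N ^ k *ᵥ (N *ᵥ y) = N *ᵥ (N ^ k *ᵥ y) := by
          rw [Matrix.mulVec_mulVec, Matrix.mulVec_mulVec, ← pow_succ, ← pow_succ']
        rw [h5, h6, hskew, ih, h7, pow_succ]
        ring
  obtain ⟨v, hv⟩ : ∃ v : Fin n → K, N ^ (n - 1) *ᵥ v ≠ 0 := by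
    by_contra hcon
    push Not at hcon
    apply h2
    ext i j
    have := congrFun (hcon (Pi.single j 1)) i
    rw [Matrix.mulVec_single_one] at this
    simpa using this
  have hker : ∀ x : Fin n → K, N *ᵥ (N ^ (n - 1) *ᵥ x) = 0 := by
    intro x
    rw [Matrix.mulVec_mulVec, ← pow_succ', Nat.sub_add_cancel hn, h1, Matrix.zero_mulVec]
  have hone := ker_pow_finrank h1 h2 1 hn
  rw [pow_one] at hone
  have hline : ∀ x : Fin n → K, ∃ c : K, N ^ (n - 1) *ᵥ x = c • (N ^ (n - 1) *ᵥ v) := by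
    intro x
    have hvk : N ^ (n - 1) *ᵥ v ∈ LinearMap.ker (Matrix.toLin' N) := by
      rw [LinearMap.mem_ker, Matrix.toLin'_apply]
      exact hker v
    have hxk : N ^ (n - 1) *ᵥ x ∈ LinearMap.ker (Matrix.toLin' N) := by
      rw [LinearMap.mem_ker, Matrix.toLin'_apply]
      exact hker x
    have hv' : (⟨_, hvk⟩ : LinearMap.ker (Matrix.toLin' N)) ≠ 0 := by
      intro h0
      exact hv (congrArg Subtype.val h0)
    obtain ⟨c, hc⟩ := (finrank_eq_one_iff_of_nonzero' _ hv').mp hone ⟨_, hxk⟩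
    exact ⟨c, (congrArg Subtype.val hc).symm⟩
  have hvv : pf psi v (N ^ (n - 1) *ᵥ v) = 0 := by
    have h3 := hskewk (n - 1) v v
    rw [hm.neg_one_pow, pf_symm hsym] at h3
    have h4 : (2 : K) * pf psi v (N ^ (n - 1) *ᵥ v) = 0 := by linear_combination h3
    exact (mul_eq_zero.mp h4).resolve_left two_ne_zero
  apply hv
  apply pf_nondeg hu
  intro y
  obtain ⟨c, hc⟩ := hline y
  rw [hskewk (n - 1) v y, hc, pf_smul_right, hvv, mul_zero, mul_zero]

end MT
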