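import Pool.Agent.Helper40.MT.MainA
import Pool.Agent.Helper40.MT.MainB
import Pool.Agent.Helper40.MT.Parity
import Pool.Agent.Helper40.MT.Crit
import Pool.Agent.Helper84.MT.Cay
import Pool.Agent.Helper43.MU.Sub

/-!
# The Lie algebra of the image of an open normal subgroup
-/

set_option autoImplicit false

open NumberField MU

namespace MT

variable {F : Type} [Field F] [NumberField F] {S : Finset ℕ} {n w : ℕ} {h : Fin n → ℕ}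

theorem bas_map {K K' : Type} [Field K] [Field K'] (φ : K →+* K')
    (ψ : Matrix (Fin n) (Fin n) ℚ) : (bas K ψ).map φ = bas K' ψ := by
  ext i j
  simp [bas]

theorem bas_det (K : Type) [Field K] [CharZero K] (ψ : Matrix (Fin n) (Fin n) ℚ)
    (hψ : ψ.det ≠ 0) : (bas K ψ).det ≠ 0 := by
  have h1 : (bas K ψ).det = ((ψ.det : ℚ) : K) := by
    have h2 : bas K ψ = (Rat.castHom K).mapMatrix ψ := by
      ext i j
      simp [bas]
    rw [h2, ← RingHom.map_det]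
    simp
  rw [h1]
  exact_mod_cast hψ

theorem bas_sym (K : Type) [Field K] [CharZero K] (ψ : Matrix (Fin n) (Fin n) ℚ) (w : ℕ)
    (hψ : ψ.transpose = (-1 : ℚ) ^ w • ψ) : (bas K ψ).transpose = (-1 : K) ^ w • bas K ψ := by
  ext i j
  have h1 := congrFun (congrFun hψ i) j
  rw [Matrix.transpose_apply, Matrix.smul_apply, smul_eq_mul] at h1
  rw [Matrix.transpose_apply, Matrix.smul_apply, smul_eq_mul]
  simp only [bas, Matrix.map_apply]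
  rw [h1]
  push_cast
  ring

theorem bas_sym' (K : Type) [Field K] [CharZero K] (ψ : Matrix (Fin n) (Fin n) ℚ) (w : ℕ)
    (hψ : ψ.transpose = (-1 : ℚ) ^ w • ψ) :
    (Odd w ∧ (bas K ψ).transpose = -bas K ψ) ∨ (Even w ∧ (bas K ψ).transpose = bas K ψ) := by
  rw [bas_sym K ψ w hψ]
  rcases Nat.even_or_odd w with hw | hw
  · right
    exact ⟨hw, by rw [hw.neg_one_pow, one_smul]⟩
  · left
    exact ⟨hw, by rw [hw.neg_one_pow, neg_one_smul]⟩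

/-- the elements of the image are similitudes -/
theorem PMot.gal_sim (M : PMot F S n w h) (l : ℕ) [Fact l.Prime] (g : Gal F) :
    (mat (M.ρ l) g).transpose * bas ℚ_[l] M.ψ * mat (M.ρ l) g =
      ((((cyc l F g : ℤ_[l]ˣ) : ℤ_[l]) : ℚ_[l]) ^ w)⁻¹ • bas ℚ_[l] M.ψ := by
  have h1 := M.ψ_gal l g
  have h2 : (((cyc l F g : ℤ_[l]ˣ) : ℤ_[l]) : ℚ_[l]) ^ w ≠ 0 := by
    apply pow_ne_zero
    intro h0
    have h3 : ((cyc l F g : ℤ_[l]ˣ) : ℤ_[l]) = 0 := by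
      apply PadicInt.ext
      rw [h0, PadicInt.coe_zero]
    exact (cyc l F g).ne_zero h3
  rw [← h1, smul_smul, inv_mul_cancel₀ h2, one_smul, h1]

theorem PMot.mem_Sim (M : PMot F S n w h) (l : ℕ) [Fact l.Prime] (g : Gal F) :
    M.ρ l g ∈ Sim M.ψ ℚ_[l] :=
  ⟨_, M.gal_sim l g⟩

/-- the data in the Lie algebra of the image of an open normal subgroup: a regular nilpotent element
and a grading element -/
theorem PMot.exists_N (M : PMot F S n w h) (log : ST_LOG) (grd : ST_GRD)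
    (idx : ST_IDX) (fre : ST_FRE) (hcyc : ST_CYC) (l : ℕ) [Fact l.Prime] (p₀ : ℕ)
    (hp₀ : p₀.Prime) (hl : p₀ ≠ l) (hM : M.MaxUnip l p₀) (H : Subgroup (Gal F)) (e : ℕ)
    (he : 1 ≤ e) (hHe : ∀ g : Gal F, g ^ e ∈ H) :
    (∃ N ∈ LieZ (H.map (M.ρ l)), N ^ n = 0 ∧ N ^ (n - 1) ≠ 0 ∧
      ∃ D ∈ LieZ (H.map (M.ρ l)), D * N - N * D = N) ∧
    ∃ (g : Gal F) (k : ℕ), g ∈ H ∧ 1 ≤ k ∧
      (((cyc l F g : ℤ_[l]ˣ) : ℤ_[l]) : ℚ_[l]) = ((p₀ ^ k : ℕ) : ℚ_[l]) := by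
  obtain ⟨𝔓, k, g, h𝔓, hk, hg⟩ := exists_frob (F := F) idx fre p₀ hp₀
  obtain ⟨τ, hτ, hτ1, hτ2, hτ3⟩ := hM 𝔓 h𝔓
  have hge : CongPow 𝔓 (p₀ ^ (k * e)) (g ^ e : Gal F) := by
    have := congPow_pow 𝔓 (p₀ ^ k) g hg e
    rwa [← pow_mul] at this
  have hke : 1 ≤ k * e := Nat.mul_pos hk he
  set q := p₀ ^ (k * e) with hq
  have hq2 : 2 ≤ q := by
    calc 2 ≤ p₀ := hp₀.two_le
      _ = p₀ ^ 1 := (pow_one _).symm
      _ ≤ p₀ ^ (k * e) := Nat.pow_le_pow_right hp₀.pos hke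
  have hcg : (((cyc l F (g ^ e) : ℤ_[l]ˣ) : ℤ_[l]) : ℚ_[l]) = (q : ℚ_[l]) := by
    have h1 := hcyc F F l p₀ hp₀ hl 𝔓 h𝔓 (k * e) (g ^ e) hge
    rw [h1, hq]
    push_cast
    rfl
  refine ⟨?_, g ^ e, k * e, hHe g, hke, hcg⟩
  obtain ⟨ht1, ht2⟩ := unip_pow (mat (M.ρ l) τ) hτ1 hτ2 e he
  have hconj : M.ρ l (g ^ e) * M.ρ l (τ ^ e) * (M.ρ l (g ^ e))⁻¹ = M.ρ l (τ ^ e) ^ q := by
    have h1 := hτ3 (k * e) (g ^ e) hke hge
    rw [← map_inv, ← map_mul, ← map_mul]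
    have h2 : g ^ e * τ ^ e * (g ^ e)⁻¹ = (g ^ e * τ * (g ^ e)⁻¹) ^ e := by
      rw [conj_pow]
    rw [h2, map_pow, h1, map_pow, ← pow_mul, ← pow_mul, mul_comm]
  have hcoe : ∀ x : Gal F, ((M.ρ l x : Matrix.GeneralLinearGroup (Fin n) ℚ_[l]) :
      Matrix (Fin n) (Fin n) ℚ_[l]) = mat (M.ρ l) x := fun _ => rfl
  obtain ⟨N, hN, hN1, hN2, hN3⟩ := log ℚ_[l] n (H.map (M.ρ l)) (M.ρ l (τ ^ e))
    (Subgroup.mem_map_of_mem _ (hHe τ)) (M.ρ l (g ^ e)) q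
    (by rw [hcoe, map_pow]; exact ht1) (by rw [hcoe, map_pow]; exact ht2) hconj
  obtain ⟨D, hD, hD1⟩ := grd ℚ_[l] n w q (bas ℚ_[l] M.ψ) N (H.map (M.ρ l)) (M.ρ l (g ^ e))
    (Subgroup.mem_map_of_mem _ (hHe g)) hq2 (bas_det _ _ M.ψ_det)
    (by
      have h1 := M.ψ_gal l (g ^ e)
      rw [hcg] at h1
      exact h1) hN1 hN2 hN3
  exact ⟨N, hN, hN1, hN2, D, hD, hD1⟩

end MT
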