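import Pool.Agent.Helper40.MT.MainC

/-!
# The main theorem
-/

set_option autoImplicit false

open NumberField MU

namespace MT

variable {F : Type} [Field F] [NumberField F] {S : Finset ℕ} {n w : ℕ} {h : Fin n → ℕ}

/-- Sen's theorem gives an element of the span of the Lie algebra over an algebraically closed
field -/
theorem PMot.sen_mem (M : PMot F S n w h) (l : ℕ) [Fact l.Prime]
    (hh : ¬ ∃ (e : Equiv.Perm (Fin n)) (a d : ℚ), ∀ j : Fin n, (h (e j) : ℚ) = a + d * (j : ℕ))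
    (H : Subgroup (Gal F)) (hH : IsOpen (H : Set (Gal F))) :
    ∃ (C : Type) (_ : Field C) (_ : IsAlgClosed C) (_ : Algebra ℚ_[l] C)
      (T : Matrix (Fin n) (Fin n) C),
      T ∈ Submodule.span C {B | ∃ A ∈ LieZ (H.map (M.ρ l)), B = A.map (algebraMap ℚ_[l] C)} ∧
      ∀ c d : C, T.charpoly ≠ ∏ j : Fin n, (Polynomial.X - Polynomial.C (c + d * (j : ℕ))) := by
  obtain ⟨C₀, _, _, P, hP⟩ := M.sen l
  let C := AlgebraicClosure C₀
  letI : Algebra ℚ_[l] C := ((algebraMap C₀ C).comp (algebraMap ℚ_[l] C₀)).toAlgebra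
  have halg : algebraMap ℚ_[l] C = (algebraMap C₀ C).comp (algebraMap ℚ_[l] C₀) := rfl
  haveI : CharZero C := charZero_of_injective_algebraMap (algebraMap ℚ_[l] C).injective
  let P' : Matrix.GeneralLinearGroup (Fin n) C :=
    Matrix.GeneralLinearGroup.map (algebraMap C₀ C) P
  refine ⟨C, inferInstance, inferInstance, inferInstance,
    (P' : Matrix (Fin n) (Fin n) C) * Matrix.diagonal (fun j => (h j : C)) *
      ((P'⁻¹ : Matrix.GeneralLinearGroup (Fin n) C) : Matrix (Fin n) (Fin n) C), ?_, ?_⟩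
  · have hmap : (P' : Matrix (Fin n) (Fin n) C) * Matrix.diagonal (fun j => (h j : C)) *
        ((P'⁻¹ : Matrix.GeneralLinearGroup (Fin n) C) : Matrix (Fin n) (Fin n) C) =
        ((P : Matrix (Fin n) (Fin n) C₀) * Matrix.diagonal (fun j => (h j : C₀)) *
        ((P⁻¹ : Matrix.GeneralLinearGroup (Fin n) C₀) : Matrix (Fin n) (Fin n) C₀)).map
          (algebraMap C₀ C) := by
      rw [Matrix.map_mul, Matrix.map_mul, Matrix.diagonal_map (map_zero _)]
      have h1 : (P'⁻¹ : Matrix.GeneralLinearGroup (Fin n) C) =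
          Matrix.GeneralLinearGroup.map (algebraMap C₀ C) P⁻¹ := by
        rw [map_inv]
      rw [h1]
      simp only [map_natCast]
      rfl
    rw [hmap]
    refine mem_span_of_forms
      (I := {f : MvPolynomial (Fin n × Fin n) ℚ_[l] // ∀ σ ∈ H, ev (mat (M.ρ l) σ) f = 0})
      (fun f i j => ev (1 : Matrix (Fin n) (Fin n) ℚ_[l]) (MvPolynomial.pderiv (i, j) f.1))
      (LieZ (H.map (M.ρ l))) ?_ C _ ?_
    · intro A hA f hf
      refine hA ⟨f, fun σ hσ => ?_⟩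
      exact hf (M.ρ l σ) (Subgroup.mem_map_of_mem _ hσ)
    · intro f
      have h2 := congrArg (algebraMap C₀ C) (hP H hH f.1 f.2)
      simp only [map_sum, map_zero, map_mul] at h2
      simp only [Matrix.map_apply, halg, RingHom.comp_apply]
      exact h2
  · intro c d hcd
    exact hh (ap_transfer h C P' c d hcd)

/-- the Lie algebra of the image of an open normal subgroup -/
theorem PMot.lie_full (M : PMot F S n w h) (zar : ST_ZAR) (log : ST_LOG) (grd : ST_GRD)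
    (core : ST_CORE) (idx : ST_IDX) (fre : ST_FRE) (hcyc : ST_CYC) (l : ℕ) [Fact l.Prime] (p₀ : ℕ)
    (hp₀ : p₀.Prime) (hl : p₀ ≠ l) (hM : M.MaxUnip l p₀) (irr : IsIrr (mat (M.ρ l)))
    (h7 : n ≠ 7 ∨ ∃ g : Gal F, (mat (M.ρ l) g - 1).rank = 1) (hc : M.Crit l)
    (H : Subgroup (Gal F)) (hH : IsOpen (H : Set (Gal F))) (hnor : H.Normal) (e : ℕ)
    (he : 1 ≤ e) (hHe : ∀ g : Gal F, g ^ e ∈ H) :
    (∀ A : Matrix (Fin n) (Fin n) ℚ_[l], A.transpose * bas ℚ_[l] M.ψ + bas ℚ_[l] M.ψ * A = 0 →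
      A ∈ LieZ (H.map (M.ρ l))) ∧
    ((bas ℚ_[l] M.ψ).transpose = -bas ℚ_[l] M.ψ ∨
      ((bas ℚ_[l] M.ψ).transpose = bas ℚ_[l] M.ψ ∧ Odd n)) := by
  obtain ⟨⟨N, hN, hN1, hN2, D, hD, hD1⟩, -⟩ :=
    M.exists_N log grd idx fre hcyc l p₀ hp₀ hl hM H e he hHe
  obtain ⟨zbr, zad, -, zsim, -⟩ := zar ℚ_[l] n (H.map (M.ρ l))
  have hdet := bas_det ℚ_[l] M.ψ M.ψ_det
  have hsym := bas_sym' ℚ_[l] M.ψ w M.ψ_sym
  have hgsp : ∀ A ∈ LieZ (H.map (M.ρ l)), ∃ c : ℚ_[l],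
      A.transpose * bas ℚ_[l] M.ψ + bas ℚ_[l] M.ψ * A = c • bas ℚ_[l] M.ψ := by
    apply zsim _ hdet
    intro x hx
    obtain ⟨g, -, rfl⟩ := Subgroup.mem_map.mp hx
    exact ⟨_, M.gal_sim l g⟩
  constructor
  · refine core ℚ_[l] n (bas ℚ_[l] M.ψ) N D (LieZ (H.map (M.ρ l))) (M.ρ l).range hdet ?_ zbr hgsp
      hN hN1 hN2 hD hD1 ?_ ?_ ?_ ?_ ?_
    · rcases hsym with ⟨-, h1⟩ | ⟨-, h1⟩
      · exact Or.inl h1
      · exact Or.inr h1
    · rintro _ ⟨g, rfl⟩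
      exact ⟨_, M.gal_sim l g⟩
    · rintro _ ⟨g, rfl⟩ A hA
      refine zad (M.ρ l g) ?_ A hA
      intro x hx
      obtain ⟨s, hs, rfl⟩ := Subgroup.mem_map.mp hx
      rw [← map_inv, ← map_mul, ← map_mul]
      exact Subgroup.mem_map_of_mem _ (hnor.conj_mem s hs g)
    · intro W hW
      exact irr_stable irr W fun g v hv => hW (M.ρ l g) ⟨g, rfl⟩ v hv
    · rcases h7 with h7 | ⟨g, hg⟩
      · exact Or.inl h7
      · exact Or.inr ⟨M.ρ l g, ⟨g, rfl⟩, hg⟩
    · rcases hc with h1 | ⟨g, hg, hg'⟩ | ⟨g, hg⟩ | ⟨g, hg⟩ | ⟨g, P, hg, hP⟩ | h1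
      · exact Or.inl h1
      · exact Or.inr (Or.inl ⟨M.ρ l g, ⟨g, rfl⟩, hg, hg'⟩)
      · exact Or.inr (Or.inr (Or.inl ⟨M.ρ l g, ⟨g, rfl⟩, hg⟩))
      · exact Or.inr (Or.inr (Or.inr (Or.inl ⟨M.ρ l g, ⟨g, rfl⟩, hg⟩)))
      · refine Or.inr (Or.inr (Or.inr (Or.inl ⟨M.ρ l g, ⟨g, rfl⟩, ?_⟩)))
        intro C _ _ c r hcr
        haveI : CharZero C := charZero_of_injective_algebraMap (algebraMap ℚ_[l] C).injective
        have hg2 : ((M.ρ l g : Matrix.GeneralLinearGroup (Fin n) ℚ_[l]) :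
            Matrix (Fin n) (Fin n) ℚ_[l]).charpoly = P.map (Int.castRingHom ℚ_[l]) := hg
        rw [hg2, Polynomial.map_map,
          show (algebraMap ℚ_[l] C).comp (Int.castRingHom ℚ_[l]) = Int.castRingHom C from
            RingHom.ext_int _ _] at hcr
        obtain ⟨c', r', h3⟩ := gp_transfer P C c r hcr
        exact hP c' r' h3
      · exact Or.inr (Or.inr (Or.inr (Or.inr (M.sen_mem l h1 H hH))))
  · rcases hsym with ⟨-, h1⟩ | ⟨-, h1⟩
    · exact Or.inl h1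
    · right
      refine ⟨h1, ?_⟩
      obtain ⟨c, hc⟩ := hgsp N hN
      have hu : IsUnit (bas ℚ_[l] M.ψ).det := isUnit_iff_ne_zero.mpr hdet
      have hn : 0 < n := by
        rcases Nat.eq_zero_or_pos n with h | h
        · subst h
          exact absurd (Subsingleton.elim _ _) hN2
        · exact h
      have htr : N.trace = 0 := by
        have hnil : IsNilpotent N := ⟨n, hN1⟩
        exact (Matrix.isNilpotent_trace_of_isNilpotent hnil).eq_zero
      have hc0 : c = 0 := by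
        have h2 := congrArg (fun X => ((bas ℚ_[l] M.ψ)⁻¹ * X).trace) hc
        simp only [Matrix.mul_add, Matrix.trace_add, Matrix.mul_smul, Matrix.trace_smul] at h2
        have t1 : ((bas ℚ_[l] M.ψ)⁻¹ * (N.transpose * bas ℚ_[l] M.ψ)).trace = 0 := by
          rw [Matrix.trace_mul_comm, Matrix.mul_assoc, Matrix.mul_nonsing_inv _ hu,
            Matrix.mul_one, Matrix.trace_transpose, htr]
        have t2 : ((bas ℚ_[l] M.ψ)⁻¹ * (bas ℚ_[l] M.ψ * N)).trace = 0 := by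
          rw [← Matrix.mul_assoc, Matrix.nonsing_inv_mul _ hu, Matrix.one_mul, htr]
        rw [t1, t2, Matrix.nonsing_inv_mul _ hu, Matrix.trace_one, Fintype.card_fin, add_zero,
          smul_eq_mul] at h2
        have hn0 : (n : ℚ_[l]) ≠ 0 := Nat.cast_ne_zero.mpr hn.ne'
        rcases mul_eq_zero.mp h2.symm with h3 | h3
        · exact h3
        · exact absurd h3 hn0
      rw [hc0, zero_smul] at hc
      exact parity (bas ℚ_[l] M.ψ) N hdet h1 hc hN1 hN2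

/-- the image of an open normal subgroup is dense in the group of similitudes -/
theorem PMot.sim_le (M : PMot F S n w h) (hw : 0 < w) (zar : ST_ZAR) (log : ST_LOG) (grd : ST_GRD)
    (core : ST_CORE) (sim : ST_SIM) (ism : ST_ISM)
    (idx : ST_IDX) (fre : ST_FRE) (hcyc : ST_CYC) (l : ℕ) [Fact l.Prime] (p₀ : ℕ)
    (hp₀ : p₀.Prime) (hl : p₀ ≠ l) (hM : M.MaxUnip l p₀) (irr : IsIrr (mat (M.ρ l)))
    (h7 : n ≠ 7 ∨ ∃ g : Gal F, (mat (M.ρ l) g - 1).rank = 1) (hc : M.Crit l)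
    (H : Subgroup (Gal F)) (hH : IsOpen (H : Set (Gal F))) (hnor : H.Normal) (e : ℕ)
    (he : 1 ≤ e) (hHe : ∀ g : Gal F, g ^ e ∈ H) (K : Type) [Field K] [Algebra ℚ_[l] K] :
    Sim M.ψ K ⊆ ZC (H.map (M.ρ l) : Set (Matrix.GeneralLinearGroup (Fin n) ℚ_[l])) K := by
  obtain ⟨hfull, hsym⟩ := M.lie_full zar log grd core idx fre hcyc l p₀ hp₀ hl hM irr h7 hc H hH
    hnor e he hHe
  obtain ⟨-, g, k, hg, hk, hcg⟩ := M.exists_N log grd idx fre hcyc l p₀ hp₀ hl hM H e he hHe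
  obtain ⟨-, -, zldv, -, zmul⟩ := zar ℚ_[l] n (H.map (M.ρ l))
  have hdet := bas_det ℚ_[l] M.ψ M.ψ_det
  rintro x ⟨c, hx⟩
  refine sim ℚ_[l] n (bas ℚ_[l] M.ψ) (H.map (M.ρ l)) hdet hsym ?_ ?_ ?_ K x c ?_
  · intro y hy
    obtain ⟨s, -, rfl⟩ := Subgroup.mem_map.mp hy
    exact ⟨_, M.gal_sim l s⟩
  · -- infinitely many multipliers
    have hinj : Function.Injective fun i : ℕ =>
        (((((p₀ ^ k : ℕ) : ℚ_[l]) ^ i) ^ w)⁻¹ : ℚ_[l]) := by
      intro i j hij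
      have h1 := inv_injective hij
      rw [← pow_mul, ← pow_mul, ← Nat.cast_pow, ← Nat.cast_pow] at h1
      have h2 : (p₀ ^ k) ^ (i * w) = (p₀ ^ k) ^ (j * w) := by exact_mod_cast h1
      have h3 : 2 ≤ p₀ ^ k := by
        calc 2 ≤ p₀ := hp₀.two_le
          _ = p₀ ^ 1 := (pow_one _).symm
          _ ≤ p₀ ^ k := Nat.pow_le_pow_right hp₀.pos hk
      exact Nat.eq_of_mul_eq_mul_right hw (Nat.pow_right_injective h3 h2)
    refine (Set.infinite_range_of_injective hinj).mono ?_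
    rintro _ ⟨i, rfl⟩
    refine ⟨M.ρ l (g ^ i), Subgroup.mem_map_of_mem _ (H.pow_mem hg i), ?_⟩
    have h1 := M.gal_sim l (g ^ i)
    rw [map_pow (cyc l F)] at h1
    push_cast at h1
    rw [hcg] at h1
    exact h1
  · intro L _ _ y hy hy1
    haveI : CharZero L := charZero_of_injective_algebraMap (algebraMap ℚ_[l] L).injective
    rw [bas_map] at hy
    refine ism L n (bas L M.ψ) _ (bas_det L M.ψ M.ψ_det) ?_ (zmul L) ?_ y hy hy1
    · rcases bas_sym' L M.ψ w M.ψ_sym with ⟨-, h1⟩ | ⟨-, h1⟩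
      · exact Or.inl h1
      · exact Or.inr h1
    · intro z hz hz1 f hf
      have hcast : ∃ ε : ℚ_[l], ε * ε = 1 ∧
          (bas ℚ_[l] M.ψ).transpose = ε • bas ℚ_[l] M.ψ := by
        refine ⟨(-1) ^ w, ?_, bas_sym _ _ _ M.ψ_sym⟩
        rw [← mul_pow]
        simp
      obtain ⟨ε, hε, hεψ⟩ := hcast
      refine isometry_vanish two_ne_zero ε hε (bas ℚ_[l] M.ψ) (isUnit_iff_ne_zero.mpr hdet) hεψ
        {f | ∀ x ∈ H.map (M.ρ l), ev (x : Matrix (Fin n) (Fin n) ℚ_[l]) f = 0} ?_ ?_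
        (z : Matrix (Fin n) (Fin n) L) ?_ hz1 f hf
      · intro f hf
        have h1 := hf 1 (Subgroup.one_mem _)
        have h2 := ev_map (algebraMap ℚ_[l] L) (fun _ => rfl) (1 : Matrix (Fin n) (Fin n) ℚ_[l]) f
        rw [Matrix.map_one _ (map_zero _) (map_one _)] at h2
        rw [← h2]
        rw [Units.val_one] at h1
        rw [h1, map_zero]
      · intro A hA f hf x hx
        exact zldv A (hfull A hA) f hf x hx
      · rw [bas_map]
        exact hz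
  · rw [bas_map]
    exact hx

/-- MAIN -/
theorem st_MAIN (irm : ST_IRM) (zar : ST_ZAR) (log : ST_LOG) (grd : ST_GRD) (ten : ST_TEN)
    (sim : ST_SIM) (ism : ST_ISM) (core : ST_CORE) (idx : ST_IDX) (fre : ST_FRE) (hcyc : ST_CYC) :
    ST_MAIN := by
  intro F _ _ S hS n w h M hw l _ p₀ hp₀ hl hM h7 hc K _ _
  haveI : CharZero K := charZero_of_injective_algebraMap (algebraMap ℚ_[l] K).injective
  have irr := irm F S hS n w h M l p₀ hp₀ hl hM
  obtain ⟨ten1, ten2⟩ := ten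
  have hZC : ∀ H : Subgroup (Gal F), IsOpen (H : Set (Gal F)) → ZC (M.ρ l '' H) K = Sim M.ψ K := by
    intro H hH
    obtain ⟨H₁, hle, hnor, hopen, e, he, hHe⟩ := exists_core H hH
    apply Set.Subset.antisymm
    · intro g hg
      rw [ten2 K n M.ψ M.ψ_det]
      refine ten1 ℚ_[l] n 2 2 (M.ρ l '' H) (polTen M.ψ) ?_ K g hg
      rintro _ ⟨s, -, rfl⟩
      exact (ten2 ℚ_[l] n M.ψ M.ψ_det _).mp (M.mem_Sim l s)
    · refine (M.sim_le hw zar log grd core sim ism idx fre hcyc l p₀ hp₀ hl hM irr h7 hc H₁ hopen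
        hnor e he hHe K).trans ?_
      intro g hg f hf
      refine hg f ?_
      rintro _ ⟨s, hs, rfl⟩
      exact hf _ ⟨s, hle hs, rfl⟩
  have htop : IsOpen ((⊤ : Subgroup (Gal F)) : Set (Gal F)) := by
    rw [Subgroup.coe_top]
    exact isOpen_univ
  have hGl : M.Gl l K = Sim M.ψ K := by
    rw [← hZC ⊤ htop, Subgroup.coe_top, Set.image_univ]
    rfl
  have hGmot : M.Gmot K = Sim M.ψ K := by
    apply Set.Subset.antisymm
    · intro g hg
      rw [ten2 K n M.ψ M.ψ_det]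
      exact hg 2 2 _ M.mot_pol
    · intro g hg a b t ht
      rw [← hZC ⊤ htop] at hg
      refine ten1 ℚ_[l] n a b (M.ρ l '' (⊤ : Subgroup (Gal F))) t ?_ K g hg
      rintro _ ⟨s, -, rfl⟩
      exact M.mot_gal a b t ht l s
  have hGl0 : M.Gl0 l K = Sim M.ψ K := by
    apply Set.Subset.antisymm
    · intro g hg
      rw [← hZC ⊤ htop]
      exact hg ⊤ htop
    · intro g hg H hH
      rw [hZC H hH]
      exact hg
  have hsub : M.Gsigma K ⊆ M.Gl0 l K := by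
    rw [hGl0, ← hGmot]
    intro g hg a b t ht
    exact hg a b t (M.mot_hodge a b t ht)
  refine ⟨hZC, by rw [hGl, hGmot], by rw [hGl0, hGmot], hGmot, hsub, ?_⟩
  intro hyp
  refine Set.Subset.antisymm ?_ hsub
  intro g hg a b t ht
  obtain ⟨H, hH, hfix⟩ := hyp a b t ht
  refine ten1 ℚ_[l] n a b (M.ρ l '' H) t ?_ K g (hg H hH)
  rintro _ ⟨s, hs, rfl⟩
  exact hfix s hs

end MT
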