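import Pool.Agent.Helper40.MT.Stmts
import Pool.Agent.Helper3.MU.Base

/-!
# Arithmetic preliminaries for the main theorem
-/

set_option autoImplicit false

open NumberField MU

namespace MT

variable {F : Type} [Field F] [NumberField F]

/-- an open subgroup contains an open normal subgroup, and powers of all elements -/
theorem exists_core (H : Subgroup (Gal F)) (hH : IsOpen (H : Set (Gal F))) :
    ∃ H₁ : Subgroup (Gal F), H₁ ≤ H ∧ H₁.Normal ∧ IsOpen (H₁ : Set (Gal F)) ∧
      ∃ e : ℕ, 1 ≤ e ∧ ∀ g : Gal F, g ^ e ∈ H₁ := by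
  have hc : IsClosed (H : Set (Gal F)) := Subgroup.isClosed_of_isOpen H hH
  haveI : Finite (Gal F ⧸ H) := Subgroup.quotient_finite_of_isOpen H hH
  haveI : H.FiniteIndex := Subgroup.finiteIndex_of_finite_quotient
  have hcc := Subgroup.normalCore_isClosed H hc
  have ho := Subgroup.isOpen_of_isClosed_of_finiteIndex H.normalCore hcc
  haveI hfi : H.normalCore.FiniteIndex := inferInstance
  refine ⟨H.normalCore, H.normalCore_le, inferInstance, ho, H.normalCore.index, ?_, ?_⟩
  · exact Nat.one_le_iff_ne_zero.mpr hfi.index_ne_zero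
  · intro g
    exact Subgroup.pow_index_mem H.normalCore g

/-- some prime over `p` has a Frobenius element in the Galois group of `F` -/
theorem exists_frob (idx : ST_IDX) (fre : ST_FRE) (p : ℕ) (hp : p.Prime) :
    ∃ (𝔓 : Ideal (integralClosure ℤ (AlgebraicClosure F))) (k : ℕ) (g : Gal F), Over p 𝔓 ∧ 1 ≤ k ∧
      CongPow 𝔓 (p ^ k) g := by
  obtain ⟨H, e, he, hopen, hcont, hcont', hind⟩ := idx F
  obtain ⟨𝔓, h𝔓, φ, hφ⟩ := (fre F p hp).1
  have hne : H.index ≠ 0 := by
    rw [hind]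
    exact (Module.finrank_pos (R := ℚ) (M := F)).ne'
  obtain ⟨k, hk, -, hmem⟩ := Subgroup.exists_pow_mem_of_index_ne_zero hne φ
  refine ⟨𝔓, k, e.symm ⟨φ ^ k, hmem⟩, h𝔓, hk, ?_⟩
  exact congPow_esymm H e he 𝔓 (p ^ k) ⟨φ ^ k, hmem⟩ (congPow_pow 𝔓 p φ hφ k)

end MT
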