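import Pool.Agent.Helper40.MT.Defs2

/-!
# The criterion for a large image
-/

set_option autoImplicit false

open NumberField MU

namespace MT

variable {F : Type} [Field F] [NumberField F] {S : Finset ℕ} {n w : ℕ} {h : Fin n → ℕ}

/-- Criteria for the image to be large: the rank is at most `3`; or some Galois element acts as a
pseudo-reflection; or the rank is not `7` and some Galois element acts as a unipotent matrix
different from `1` with more than one Jordan block, or with a characteristic polynomial which does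
not have its roots in geometric progression (in any extension field of `ℚ_l`; or in `ℂ` if it has
integral coefficients, for instance for a Frobenius), or the Hodge types are not in arithmetic
progression. -/
def PMot.Large (M : PMot F S n w h) (l : ℕ) [Fact l.Prime] : Prop :=
  n ≤ 3 ∨ (∃ g : Gal F, (mat (M.ρ l) g - 1).rank = 1) ∨ (n ≠ 7 ∧
    ((∃ g : Gal F, mat (M.ρ l) g ≠ 1 ∧ (mat (M.ρ l) g - 1) ^ (n - 1) = 0) ∨
    (∃ g : Gal F, ∀ (C : Type) [Field C] [Algebra ℚ_[l] C] (c r : C),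
      (mat (M.ρ l) g).charpoly.map (algebraMap ℚ_[l] C) ≠
        ∏ j : Fin n, (Polynomial.X - Polynomial.C (c * r ^ (j : ℕ)))) ∨
    (∃ (g : Gal F) (P : Polynomial ℤ), (mat (M.ρ l) g).charpoly = P.map (Int.castRingHom ℚ_[l]) ∧
      ∀ c r : ℂ, P.map (Int.castRingHom ℂ) ≠
        ∏ j : Fin n, (Polynomial.X - Polynomial.C (c * r ^ (j : ℕ)))) ∨
    ¬ ∃ (e : Equiv.Perm (Fin n)) (a d : ℚ), ∀ j : Fin n, (h (e j) : ℚ) = a + d * (j : ℕ)))

theorem PMot.Large.crit {M : PMot F S n w h} {l : ℕ} [Fact l.Prime] (hM : M.Large l) :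
    (n ≠ 7 ∨ ∃ g : Gal F, (mat (M.ρ l) g - 1).rank = 1) ∧ M.Crit l := by
  rcases hM with h1 | h1 | ⟨h1, h2 | h2 | h2 | h2⟩
  · exact ⟨Or.inl (by omega), Or.inl h1⟩
  · exact ⟨Or.inr h1, Or.inr (Or.inr (Or.inl h1))⟩
  · exact ⟨Or.inl h1, Or.inr (Or.inl h2)⟩
  · exact ⟨Or.inl h1, Or.inr (Or.inr (Or.inr (Or.inl h2)))⟩
  · exact ⟨Or.inl h1, Or.inr (Or.inr (Or.inr (Or.inr (Or.inl h2))))⟩
  · exact ⟨Or.inl h1, Or.inr (Or.inr (Or.inr (Or.inr (Or.inr h2))))⟩

end MT
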