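import Pool.Agent.Helper40.MT.Main2
import Pool.Agent.Helper40.MT.Large
import Pool.Agent.Helper8.MT.CORE
import Pool.Agent.Helper8.MT.StA
import Pool.Agent.Helper35.MT.ABS
import Pool.Agent.Helper35.MT.GRD
import Pool.Agent.Helper3.MT.LOGS
import Pool.Agent.Helper3.MT.ZARS
import Pool.Agent.Helper84.MT.StI
import Pool.Agent.Helper84.MU.IDX
import Pool.Agent.Helper22.MU.FRE
import Pool.Agent.Helper84.MU.CYC

/-!
# The assembly (up to the irreducibility)
-/

set_option autoImplicit false

open NumberField MU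

namespace MT

/-- the main theorem, up to the irreducibility -/
theorem all2 (irm2 : ST_IRM2) : ST_MAIN2 :=
  st_MAIN2 irm2 st_ZAR st_LOG st_GRD st_TEN st_SIM st_ISM st_CORE st_ABS st_IDX st_FRE st_CYC

end MT
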