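import Pool.Agent.Helper40.MT.Defs2
import Pool.Agent.Helper40.MT.Crit

/-!
# The Lie algebra lemma over an extension field
-/

set_option autoImplicit false

open NumberField MU

namespace MT

section

variable {K C : Type} [Field K] [Field C] {n : ℕ}

/-- the rank does not change under a field extension -/
theorem rank_map_field (M : Matrix (Fin n) (Fin n) K) (φ : K →+* C) :
    (M.map φ).rank = M.rank := by
  classical
  obtain ⟨V, U, e, hV, hU, hVMU⟩ := Matrix.exists_rank_normal_form M
  have hVd : IsUnit V.det := (Matrix.isUnit_iff_isUnit_det V).mp hV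
  have hUd : IsUnit U.det := (Matrix.isUnit_iff_isUnit_det U).mp hU
  have hVd' : IsUnit (V.map φ).det := by
    have h1 : (V.map φ).det = φ V.det := (RingHom.map_det φ V).symm
    rw [h1]
    exact hVd.map φ
  have hUd' : IsUnit (U.map φ).det := by
    have h1 : (U.map φ).det = φ U.det := (RingHom.map_det φ U).symm
    rw [h1]
    exact hUd.map φ
  have hdiag : ∀ (R : Type) [Field R],
      ((Matrix.fromBlocks 1 0 0 0 : Matrix (Fin M.rank ⊕ Fin (Fintype.card (Fin n) - M.rank))
        (Fin M.rank ⊕ Fin (Fintype.card (Fin n) - M.rank)) R).submatrix e e) =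
      Matrix.diagonal fun i => if (e i).isLeft then 1 else 0 := by
    intro R _
    rw [← Matrix.diagonal_one, ← Matrix.diagonal_zero, Matrix.fromBlocks_diagonal,
      Matrix.submatrix_diagonal_equiv]
    congr 1
    funext i
    rcases h : e i with a | b <;> simp [h]
  have hrk : ∀ (R : Type) [Field R],
      (Matrix.diagonal fun i => if (e i).isLeft then (1 : R) else 0).rank =
        Fintype.card {i // (e i).isLeft = true} := by
    intro R _
    rw [Matrix.rank_diagonal]
    apply Fintype.card_congr
    apply Equiv.subtypeEquivRight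
    intro i
    by_cases h : (e i).isLeft = true <;> simp [h]
  have h1 : (V * M * U).rank = M.rank := by
    rw [Matrix.rank_mul_eq_left_of_isUnit_det U (V * M) hUd,
      Matrix.rank_mul_eq_right_of_isUnit_det V M hVd]
  have h2 : (V.map φ * M.map φ * U.map φ).rank = (M.map φ).rank := by
    rw [Matrix.rank_mul_eq_left_of_isUnit_det (U.map φ) (V.map φ * M.map φ) hUd',
      Matrix.rank_mul_eq_right_of_isUnit_det (V.map φ) (M.map φ) hVd']
  rw [← h1, ← h2, hVMU, hdiag K, hrk K, ← Matrix.map_mul, ← Matrix.map_mul, hVMU, hdiag K,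
    Matrix.diagonal_map (map_zero φ)]
  rw [← hrk C]
  congr 2
  funext i
  by_cases h : (e i).isLeft = true <;> simp [h]

variable [Algebra K C]

/-- the span over `C` of a space of matrices over `K` -/
def spn (C : Type) [Field C] [Algebra K C] (a : Submodule K (Matrix (Fin n) (Fin n) K)) :
    Submodule C (Matrix (Fin n) (Fin n) C) :=
  Submodule.span C {B | ∃ A ∈ a, B = A.map (algebraMap K C)}

theorem mem_spn (a : Submodule K (Matrix (Fin n) (Fin n) K)) {A : Matrix (Fin n) (Fin n) K}
    (hA : A ∈ a) : A.map (algebraMap K C) ∈ spn C a :=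
  Submodule.subset_span ⟨A, hA, rfl⟩

/-- a matrix over `K` in the span over `C` is in the space -/
theorem of_mem_spn (a : Submodule K (Matrix (Fin n) (Fin n) K)) {A : Matrix (Fin n) (Fin n) K}
    (hA : A.map (algebraMap K C) ∈ spn C a) : A ∈ a := by
  obtain ⟨π, hπ⟩ := LinearMap.exists_leftInverse_of_injective (Algebra.linearMap K C)
    (LinearMap.ker_eq_bot.mpr (algebraMap K C).injective)
  have hπ1 : ∀ x : K, π (algebraMap K C x) = x := fun x => LinearMap.congr_fun hπ x
  have key : ∀ T ∈ spn C a, ∀ c : C, (c • T).map π ∈ a := by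
    intro T hT
    induction hT using Submodule.span_induction with
    | mem x hx =>
      obtain ⟨B, hB, rfl⟩ := hx
      intro c
      have h1 : (c • B.map (algebraMap K C)).map π = π c • B := by
        ext i j
        rw [Matrix.map_apply, Matrix.smul_apply, Matrix.map_apply, Matrix.smul_apply,
          smul_eq_mul, smul_eq_mul, mul_comm c, ← Algebra.smul_def, map_smul, smul_eq_mul, mul_comm]
      rw [h1]
      exact a.smul_mem _ hB
    | zero =>
      intro c
      have h1 : (c • (0 : Matrix (Fin n) (Fin n) C)).map π = 0 := by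
        ext i j
        simp
      rw [h1]
      exact a.zero_mem
    | add x y _ _ hx hy =>
      intro c
      have h1 : (c • (x + y)).map π = (c • x).map π + (c • y).map π := by
        ext i j
        simp [mul_add]
      rw [h1]
      exact a.add_mem (hx c) (hy c)
    | smul d x _ hx =>
      intro c
      rw [smul_smul]
      exact hx (c * d)
  have h2 := key _ hA 1
  have h3 : ((1 : C) • A.map (algebraMap K C)).map π = A := by
    ext i j
    simp [hπ1]
  rwa [h3] at h2

/-- closure properties of the span -/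
theorem spn_le (a : Submodule K (Matrix (Fin n) (Fin n) K))
    (W : Submodule C (Matrix (Fin n) (Fin n) C))
    (h : ∀ A ∈ a, A.map (algebraMap K C) ∈ W) : spn C a ≤ W := by
  apply Submodule.span_le.mpr
  rintro _ ⟨A, hA, rfl⟩
  exact h A hA

theorem map_br (A B : Matrix (Fin n) (Fin n) K) (φ : K →+* C) :
    A.map φ * B.map φ - B.map φ * A.map φ = (A * B - B * A).map φ := by
  rw [← Matrix.map_mul, ← Matrix.map_mul, ← Matrix.map_sub _ (fun x y => map_sub φ x y)]

theorem spn_br (a : Submodule K (Matrix (Fin n) (Fin n) K))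
    (h : ∀ A ∈ a, ∀ B ∈ a, A * B - B * A ∈ a) :
    ∀ A ∈ spn C a, ∀ B ∈ spn C a, A * B - B * A ∈ spn C a := by
  intro A hA B hB
  have h1 : ∀ A₀ ∈ a, ∀ B ∈ spn C a,
      A₀.map (algebraMap K C) * B - B * A₀.map (algebraMap K C) ∈ spn C a := by
    intro A₀ hA₀ B hB
    induction hB using Submodule.span_induction with
    | mem x hx =>
      obtain ⟨B₀, hB₀, rfl⟩ := hx
      rw [map_br]
      exact mem_spn a (h _ hA₀ _ hB₀)
    | zero => simp
    | add x y _ _ hx hy =>
      rw [mul_add, add_mul, add_sub_add_comm]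
      exact (spn C a).add_mem hx hy
    | smul c x _ hx =>
      rw [Matrix.mul_smul, Matrix.smul_mul, ← smul_sub]
      exact (spn C a).smul_mem _ hx
  induction hA using Submodule.span_induction with
  | mem x hx =>
    obtain ⟨A₀, hA₀, rfl⟩ := hx
    exact h1 A₀ hA₀ B hB
  | zero => simp
  | add x y _ _ hx hy =>
    rw [mul_add, add_mul, add_sub_add_comm]
    exact (spn C a).add_mem hx hy
  | smul c x _ hx =>
    rw [Matrix.mul_smul, Matrix.smul_mul, ← smul_sub]
    exact (spn C a).smul_mem _ hx

theorem spn_sim (a : Submodule K (Matrix (Fin n) (Fin n) K)) (ψ : Matrix (Fin n) (Fin n) K)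
    (h : ∀ A ∈ a, ∃ c : K, A.transpose * ψ + ψ * A = c • ψ) :
    ∀ A ∈ spn C a, ∃ c : C, A.transpose * ψ.map (algebraMap K C) +
      ψ.map (algebraMap K C) * A = c • ψ.map (algebraMap K C) := by
  intro A hA
  induction hA using Submodule.span_induction with
  | mem x hx =>
    obtain ⟨A₀, hA₀, rfl⟩ := hx
    obtain ⟨c, hc⟩ := h A₀ hA₀
    refine ⟨algebraMap K C c, ?_⟩
    rw [← Matrix.transpose_map, ← Matrix.map_mul, ← Matrix.map_mul,
      ← Matrix.map_add _ (fun x y => map_add (algebraMap K C) x y), hc]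
    ext i j
    simp
  | zero => exact ⟨0, by simp⟩
  | add x y _ _ hx hy =>
    obtain ⟨c, hc⟩ := hx
    obtain ⟨d, hd⟩ := hy
    refine ⟨c + d, ?_⟩
    rw [add_smul, ← hc, ← hd, Matrix.transpose_add, add_mul, mul_add]
    abel
  | smul d x _ hx =>
    obtain ⟨c, hc⟩ := hx
    refine ⟨d * c, ?_⟩
    rw [mul_smul, ← hc, Matrix.transpose_smul, Matrix.smul_mul, Matrix.mul_smul, smul_add]

theorem spn_conj (a : Submodule K (Matrix (Fin n) (Fin n) K)) (g g' : Matrix (Fin n) (Fin n) K)
    (h : ∀ A ∈ a, g * A * g' ∈ a) :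
    ∀ A ∈ spn C a, g.map (algebraMap K C) * A * g'.map (algebraMap K C) ∈ spn C a := by
  intro A hA
  induction hA using Submodule.span_induction with
  | mem x hx =>
    obtain ⟨A₀, hA₀, rfl⟩ := hx
    rw [← Matrix.map_mul, ← Matrix.map_mul]
    exact mem_spn a (h A₀ hA₀)
  | zero => simp
  | add x y _ _ hx hy =>
    rw [mul_add, add_mul]
    exact (spn C a).add_mem hx hy
  | smul c x _ hx =>
    rw [Matrix.mul_smul, Matrix.smul_mul]
    exact (spn C a).smul_mem _ hx

end

/-- two extensions are contained in a common algebraically closed one -/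
theorem exists_common (K C₁ C₂ : Type) [Field K] [Field C₁] [Field C₂] [Algebra K C₁]
    [Algebra K C₂] : ∃ (Ω : Type) (_ : Field Ω) (_ : IsAlgClosed Ω) (i₁ : C₁ →+* Ω)
      (i₂ : C₂ →+* Ω), i₁.comp (algebraMap K C₁) = i₂.comp (algebraMap K C₂) := by
  obtain ⟨m, hm⟩ := Ideal.exists_maximal (TensorProduct K C₁ C₂)
  letI : Field (TensorProduct K C₁ C₂ ⧸ m) := Ideal.Quotient.field m
  refine ⟨AlgebraicClosure (TensorProduct K C₁ C₂ ⧸ m), inferInstance, inferInstance,
    (algebraMap _ _).comp ((Ideal.Quotient.mk m).comp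
      (Algebra.TensorProduct.includeLeft (R := K) (S := K) (A := C₁) (B := C₂)).toRingHom),
    (algebraMap _ _).comp ((Ideal.Quotient.mk m).comp
      (Algebra.TensorProduct.includeRight (R := K) (A := C₁) (B := C₂)).toRingHom), ?_⟩
  ext x
  simp only [RingHom.comp_apply, AlgHom.toRingHom_eq_coe, RingHom.coe_coe, AlgHom.commutes]

end MT
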