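import Pool.Agent.Helper40.MT.CoreExt
import Pool.Agent.Helper35.MT.GRD

/-!
# The Lie algebra lemma over an extension field, second part
-/

set_option autoImplicit false

open NumberField MU

namespace MT

/-- matrices which commute with the group commute with its Lie algebra -/
theorem lie_commute {K : Type} [Field K] {n : ℕ}
    (X : Subgroup (Matrix.GeneralLinearGroup (Fin n) K)) (u : Matrix (Fin n) (Fin n) K)
    (hu : ∀ g ∈ X, (g : Matrix (Fin n) (Fin n) K) * u = u * (g : Matrix (Fin n) (Fin n) K))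
    (A : Matrix (Fin n) (Fin n) K) (hA : A ∈ LieZ X) : u * A = A * u := by
  ext i j
  let f : MvPolynomial (Fin n × Fin n) K :=
    (∑ k, MvPolynomial.C (u i k) * MvPolynomial.X (k, j)) -
      ∑ k, MvPolynomial.C (u k j) * MvPolynomial.X (i, k)
  have hf : ∀ g ∈ X, ev (g : Matrix (Fin n) (Fin n) K) f = 0 := by
    intro g hg
    have h1 := congrFun (congrFun (hu g hg) i) j
    rw [Matrix.mul_apply, Matrix.mul_apply] at h1
    simp only [f, map_sub, map_sum, map_mul, ev_C, ev_X, Algebra.algebraMap_self, RingHom.id_apply]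
    rw [← h1, sub_eq_zero]
    exact Finset.sum_congr rfl fun k _ => mul_comm _ _
  have h2 := hA f hf
  rw [← grd_ldv] at h2
  have h3 : ∀ (c : K) (ij : Fin n × Fin n), ev (1 : Matrix (Fin n) (Fin n) K)
      (ldv A (MvPolynomial.C c * MvPolynomial.X ij)) = c * A ij.1 ij.2 := by
    intro c ij
    rw [Derivation.leibniz, map_add, smul_eq_mul, smul_eq_mul, map_mul, map_mul, ev_ldv_X, ev_C]
    have h4 : ldv A (MvPolynomial.C c) = 0 := (ldv A).map_algebraMap c
    rw [h4, map_zero, mul_zero, add_zero, Matrix.one_mul]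
    simp
  simp only [f, map_sub, map_sum, h3] at h2
  rw [Matrix.mul_apply, Matrix.mul_apply]
  rw [sub_eq_zero] at h2
  rw [h2]
  exact Finset.sum_congr rfl fun k _ => mul_comm _ _

/-- the Lie algebra lemma over an extension field -/
theorem core_ext (core : ST_CORE) (abs : ST_ABS) (K C : Type) [Field K] [CharZero K] [Field C]
    [Algebra K C] (n : ℕ) (ψ : Matrix (Fin n) (Fin n) K) (N D : Matrix (Fin n) (Fin n) C)
    (a : Submodule K (Matrix (Fin n) (Fin n) K))
    (G : Subgroup (Matrix.GeneralLinearGroup (Fin n) K))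
    (hdet : ψ.det ≠ 0) (hsym : ψ.transpose = -ψ ∨ ψ.transpose = ψ)
    (hbr : ∀ A ∈ a, ∀ B ∈ a, A * B - B * A ∈ a)
    (hsim : ∀ A ∈ a, ∃ c : K, A.transpose * ψ + ψ * A = c • ψ)
    (hN : N ∈ spn C a) (hN1 : N ^ n = 0) (hN2 : N ^ (n - 1) ≠ 0) (hD : D ∈ spn C a)
    (hDN : D * N - N * D = N)
    (hG : ∀ g ∈ G, ∃ c : K, (g : Matrix (Fin n) (Fin n) K).transpose * ψ *
      (g : Matrix (Fin n) (Fin n) K) = c • ψ)
    (hconj : ∀ g ∈ G, ∀ A ∈ a, (g : Matrix (Fin n) (Fin n) K) * A *
      ((g⁻¹ : Matrix.GeneralLinearGroup (Fin n) K) : Matrix (Fin n) (Fin n) K) ∈ a)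
    (hcomm : ∀ u : Matrix (Fin n) (Fin n) K, (∀ g ∈ G, (g : Matrix (Fin n) (Fin n) K) * u =
      u * (g : Matrix (Fin n) (Fin n) K)) → ∀ A ∈ a, u * A = A * u)
    (hirr : ∀ W : Submodule K (Fin n → K), (∀ g ∈ G, ∀ v ∈ W,
      (g : Matrix (Fin n) (Fin n) K).mulVec v ∈ W) → W = ⊥ ∨ W = ⊤)
    (h7 : n ≠ 7 ∨ ∃ g ∈ G, ((g : Matrix (Fin n) (Fin n) K) - 1).rank = 1)
    (hcrit : n ≤ 3 ∨ (∃ g ∈ G, (g : Matrix (Fin n) (Fin n) K) ≠ 1 ∧
        ((g : Matrix (Fin n) (Fin n) K) - 1) ^ (n - 1) = 0) ∨
      (∃ g ∈ G, ((g : Matrix (Fin n) (Fin n) K) - 1).rank = 1) ∨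
      (∃ g ∈ G, ∀ (C : Type) [Field C] [Algebra K C] (c r : C),
        (g : Matrix (Fin n) (Fin n) K).charpoly.map (algebraMap K C) ≠
          ∏ j : Fin n, (Polynomial.X - Polynomial.C (c * r ^ (j : ℕ)))) ∨
      (∃ (C : Type) (_ : Field C) (_ : IsAlgClosed C) (_ : Algebra K C)
        (T : Matrix (Fin n) (Fin n) C),
        T ∈ Submodule.span C {B | ∃ A ∈ a, B = A.map (algebraMap K C)} ∧ ∀ c d : C,
          T.charpoly ≠ ∏ j : Fin n, (Polynomial.X - Polynomial.C (c + d * (j : ℕ))))) :
    ∀ A : Matrix (Fin n) (Fin n) K, A.transpose * ψ + ψ * A = 0 → A ∈ a := by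
  intro A hA
  haveI : CharZero C := charZero_of_injective_algebraMap (algebraMap K C).injective
  let Φ : Matrix.GeneralLinearGroup (Fin n) K →* Matrix.GeneralLinearGroup (Fin n) C :=
    Matrix.GeneralLinearGroup.map (algebraMap K C)
  have hΦ : ∀ g : Matrix.GeneralLinearGroup (Fin n) K, ((Φ g : Matrix.GeneralLinearGroup (Fin n) C)
      : Matrix (Fin n) (Fin n) C) = (g : Matrix (Fin n) (Fin n) K).map (algebraMap K C) :=
    fun _ => rfl
  have hsub : ∀ g : Matrix (Fin n) (Fin n) K, g.map (algebraMap K C) - 1 =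
      (g - 1).map (algebraMap K C) := by
    intro g
    rw [Matrix.map_sub _ (fun x y => map_sub (algebraMap K C) x y),
      Matrix.map_one _ (map_zero _) (map_one _)]
  have hpow : ∀ (g : Matrix (Fin n) (Fin n) K) (k : ℕ),
      (g.map (algebraMap K C)) ^ k = (g ^ k).map (algebraMap K C) := by
    intro g k
    exact (map_pow ((algebraMap K C).mapMatrix) g k).symm
  have hinj : ∀ g g' : Matrix (Fin n) (Fin n) K, g.map (algebraMap K C) = g'.map (algebraMap K C) →
      g = g' := by
    intro g g' h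
    exact Matrix.map_injective (algebraMap K C).injective h
  apply of_mem_spn (C := C)
  refine core C n (ψ.map (algebraMap K C)) N D (spn C a) (G.map Φ) ?_ ?_ (spn_br a hbr)
    (spn_sim a ψ hsim) hN hN1 hN2 hD hDN ?_ ?_ ?_ ?_ ?_ (A.map (algebraMap K C)) ?_
  · have h1 : (ψ.map (algebraMap K C)).det = algebraMap K C ψ.det :=
      (RingHom.map_det (algebraMap K C) ψ).symm
    rw [h1]
    intro h2
    exact hdet ((map_eq_zero_iff _ (algebraMap K C).injective).mp h2)
  · rcases hsym with h1 | h1
    · left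
      rw [← Matrix.transpose_map, h1]
      ext i j
      simp
    · right
      rw [← Matrix.transpose_map, h1]
  · rintro _ ⟨g, hg, rfl⟩
    obtain ⟨c, hc⟩ := hG g hg
    refine ⟨algebraMap K C c, ?_⟩
    rw [hΦ, ← Matrix.transpose_map, ← Matrix.map_mul, ← Matrix.map_mul, hc]
    ext i j
    simp
  · rintro _ ⟨g, hg, rfl⟩ B hB
    rw [← map_inv, hΦ, hΦ]
    exact spn_conj a _ _ (hconj g hg) B hB
  · intro W hW
    refine abs K C n G N hN1 hN2 ?_ hirr W ?_
    · intro u hu
      have h1 := hcomm u hu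
      have h2 : ∀ B ∈ spn C a, u.map (algebraMap K C) * B = B * u.map (algebraMap K C) := by
        intro B hB
        induction hB using Submodule.span_induction with
        | mem x hx =>
          obtain ⟨B₀, hB₀, rfl⟩ := hx
          rw [← Matrix.map_mul, ← Matrix.map_mul, h1 B₀ hB₀]
        | zero => simp
        | add x y _ _ hx hy => rw [mul_add, add_mul, hx, hy]
        | smul c x _ hx => rw [Matrix.mul_smul, Matrix.smul_mul, hx]
      exact h2 N hN
    · intro g hg v hv
      exact hW (Φ g) ⟨g, hg, rfl⟩ v hv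
  · rcases h7 with h7 | ⟨g, hg, hg1⟩
    · exact Or.inl h7
    · refine Or.inr ⟨Φ g, ⟨g, hg, rfl⟩, ?_⟩
      rw [hΦ, hsub, rank_map_field, hg1]
  · rcases hcrit with h1 | ⟨g, hg, hg1, hg2⟩ | ⟨g, hg, hg1⟩ | ⟨g, hg, hg1⟩ |
      ⟨C₁, _, _, _, T, hT, hT1⟩
    · exact Or.inl h1
    · refine Or.inr (Or.inl ⟨Φ g, ⟨g, hg, rfl⟩, ?_, ?_⟩)
      · intro h2
        apply hg1
        apply hinj
        rw [Matrix.map_one _ (map_zero _) (map_one _)]
        exact h2
      · rw [hΦ, hsub, hpow, hg2]
        ext i j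
        simp
    · refine Or.inr (Or.inr (Or.inl ⟨Φ g, ⟨g, hg, rfl⟩, ?_⟩))
      rw [hΦ, hsub, rank_map_field, hg1]
    · refine Or.inr (Or.inr (Or.inr (Or.inl ⟨Φ g, ⟨g, hg, rfl⟩, ?_⟩)))
      intro C' _ _ c r h2
      letI : Algebra K C' := ((algebraMap C C').comp (algebraMap K C)).toAlgebra
      refine hg1 C' c r ?_
      rw [hΦ, Matrix.charpoly_map, Polynomial.map_map] at h2
      exact h2
    · refine Or.inr (Or.inr (Or.inr (Or.inr ?_)))
      obtain ⟨Ω, _, _, i₁, i₂, hi⟩ := exists_common K C C₁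
      letI : Algebra C Ω := i₁.toAlgebra
      refine ⟨Ω, inferInstance, inferInstance, inferInstance, T.map i₂, ?_, ?_⟩
      · change T.map i₂ ∈ spn Ω (spn C a)
        clear hT1
        induction hT using Submodule.span_induction with
        | mem x hx =>
          obtain ⟨B, hB, rfl⟩ := hx
          have h2 : (B.map (algebraMap K C₁)).map i₂ =
              (B.map (algebraMap K C)).map (algebraMap C Ω) := by
            ext i j
            simp only [Matrix.map_apply]
            exact (RingHom.congr_fun hi (B i j)).symm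
          rw [h2]
          exact mem_spn _ (mem_spn _ hB)
        | zero =>
          have h2 : (0 : Matrix (Fin n) (Fin n) C₁).map i₂ = 0 := by
            ext i j
            simp
          rw [h2]
          exact Submodule.zero_mem _
        | add x y _ _ hx hy =>
          rw [Matrix.map_add _ (fun x y => map_add i₂ x y)]
          exact Submodule.add_mem _ hx hy
        | smul c x _ hx =>
          have h2 : (c • x).map i₂ = i₂ c • x.map i₂ := by
            ext i j
            simp
          rw [h2]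
          exact Submodule.smul_mem _ _ hx
      · intro c d hcd
        rw [Matrix.charpoly_map] at hcd
        have hroot : ∀ x : Ω, (T.charpoly.map i₂).IsRoot x → ∃ y : C₁, i₂ y = x := by
          intro x hx
          have hs := IsAlgClosed.splits T.charpoly
          have h3 := hs.eq_prod_roots_of_monic T.charpoly_monic
          rw [h3, Polynomial.map_multiset_prod, Multiset.map_map, Polynomial.IsRoot,
            Polynomial.eval_multiset_prod, Multiset.map_map, Multiset.prod_eq_zero_iff,
            Multiset.mem_map] at hx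
          obtain ⟨y, -, hy⟩ := hx
          refine ⟨y, ?_⟩
          simp only [Function.comp_apply, Polynomial.map_sub, Polynomial.map_X, Polynomial.map_C,
            Polynomial.eval_sub, Polynomial.eval_X, Polynomial.eval_C] at hy
          exact (sub_eq_zero.mp hy).symm
        have hroot2 : ∀ j : Fin n, ∃ y : C₁, i₂ y = c + d * (j : ℕ) := by
          intro j
          apply hroot
          rw [hcd, Polynomial.IsRoot, Polynomial.eval_prod]
          exact Finset.prod_eq_zero (Finset.mem_univ j) (by simp)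
        have hfin : ∀ c₀ d₀ : C₁, (∀ j : Fin n, i₂ (c₀ + d₀ * (j : ℕ)) = c + d * (j : ℕ)) →
            False := by
          intro c₀ d₀ h4
          apply hT1 c₀ d₀
          apply Polynomial.map_injective i₂ i₂.injective
          rw [hcd, Polynomial.map_prod]
          refine Finset.prod_congr rfl fun j _ => ?_
          rw [Polynomial.map_sub, Polynomial.map_X, Polynomial.map_C, h4 j]
        by_cases hn : n = 0
        · subst hn
          exact hfin 0 0 fun j => j.elim0
        obtain ⟨y0, hy0⟩ := hroot2 ⟨0, Nat.pos_of_ne_zero hn⟩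
        simp only [Nat.cast_zero, mul_zero, add_zero] at hy0
        by_cases hn1 : n = 1
        · subst hn1
          refine hfin y0 0 fun j => ?_
          rw [Subsingleton.elim j 0]
          simp [hy0]
        obtain ⟨y1, hy1⟩ := hroot2 ⟨1, by omega⟩
        simp only [Nat.cast_one, mul_one] at hy1
        refine hfin y0 (y1 - y0) fun j => ?_
        rw [map_add, map_mul, map_sub, hy0, hy1, map_natCast]
        ring
  · rw [← Matrix.transpose_map, ← Matrix.map_mul, ← Matrix.map_mul,
      ← Matrix.map_add _ (fun x y => map_add (algebraMap K C) x y), hA]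
    ext i j
    simp

end MT
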