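import Pool.Agent.Helper85.MU.Defs
import Pool.Agent.Helper84.MT.Ode

/-!
# Polarised pure motives over a number field and the three groups of the Mumford-Tate conjecture

`F` is a number field, `Ω` its algebraic closure, embedded in `ℂ`. A polarised pure motive of rank
`n` and weight `w` over `F` is given by its realisations: the Betti realisation is `ℚ^n`, the
`l`-adic one `ℚ_l^n` (Artin's comparison isomorphism is the identity). The function `h : Fin n → ℕ`
lists the Hodge types: `r` occurs `h^(r, w - r)` times.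
-/

set_option autoImplicit false

open NumberField MU

namespace MT

/-- tensors in `T^(a,b) = V^(⊗ a) ⊗ (V^*)^(⊗ b)` for `V = R^n` -/
abbrev Tensor (n a b : ℕ) (R : Type) : Type := (Fin a → Fin n) → (Fin b → Fin n) → R

/-- the action of `GL_n(R)` on `T^(a,b)` -/
def act {n a b : ℕ} {R : Type} [CommRing R] (g : Matrix.GeneralLinearGroup (Fin n) R)
    (t : Tensor n a b R) : Tensor n a b R :=
  fun i j => ∑ i' : Fin a → Fin n, ∑ j' : Fin b → Fin n,
    (∏ s, (g : Matrix (Fin n) (Fin n) R) (i s) (i' s)) *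
      (∏ s, ((g⁻¹ : Matrix.GeneralLinearGroup (Fin n) R) : Matrix (Fin n) (Fin n) R) (j' s) (j s)) *
        t i' j'

/-- the tensor over `K` defined by a rational tensor -/
def Tensor.base {n a b : ℕ} (K : Type) [Field K] (t : Tensor n a b ℚ) : Tensor n a b K :=
  fun i j => ((t i j : ℚ) : K)

/-- the bilinear form over `K` defined by a rational one -/
def bas {n : ℕ} (K : Type) [Field K] (ψ : Matrix (Fin n) (Fin n) ℚ) : Matrix (Fin n) (Fin n) K :=
  ψ.map (fun x : ℚ => (x : K))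

/-- the invariant `ψ⁻¹ ⊗ ψ` in `T^(2,2)` of a non-degenerate bilinear form `ψ` -/
noncomputable def polTen {n : ℕ} (ψ : Matrix (Fin n) (Fin n) ℚ) : Tensor n 2 2 ℚ :=
  fun i j => ψ⁻¹ (i 0) (i 1) * ψ (j 0) (j 1)

/-- The Hodge structure of weight `w` on `ℂ^n` in which the column `j` of `B` is of type
`(h j, w - h j)`, given by its action of `ℂˣ`: `z` acts on `H^(p,q)` by `z^p (conj z)^q`. -/
noncomputable def hz {n : ℕ} (B : Matrix.GeneralLinearGroup (Fin n) ℂ) (h : Fin n → ℕ) (w : ℕ)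
    (z : ℂˣ) : Matrix.GeneralLinearGroup (Fin n) ℂ :=
  B * Units.map ((Matrix.diagonalRingHom (Fin n) ℂ : (Fin n → ℂ) →+* Matrix (Fin n) (Fin n) ℂ) :
      (Fin n → ℂ) →* Matrix (Fin n) (Fin n) ℂ)
    (MulEquiv.piUnits.symm fun j => z ^ h j *
      (Units.map ((starRingEnd ℂ : ℂ →+* ℂ) : ℂ →* ℂ) z) ^ (w - h j)) * B⁻¹

/-- the matrices of a representation -/
def mat {G R : Type} [Group G] [CommRing R] {n : ℕ}
    (r : G →* Matrix.GeneralLinearGroup (Fin n) R) : G →* Matrix (Fin n) (Fin n) R :=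
  (Units.coeHom _).comp r

/-- Polarised (effective) pure motives over `F`, for motivated or absolute Hodge cycles, of rank
`n`, weight `w` and Hodge types `h` with good reduction outside `S`. -/
structure PMot (F : Type) [Field F] [NumberField F] (S : Finset ℕ) (n w : ℕ) (h : Fin n → ℕ) where
  /-- the Galois action on the `l`-adic realisation -/
  ρ : ∀ (l : ℕ) [Fact l.Prime], Gal F →* Matrix.GeneralLinearGroup (Fin n) ℚ_[l]
  continuous : ∀ (l : ℕ) [Fact l.Prime], Continuous (ρ l)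
  /-- good reduction outside `S` -/
  good : ∀ (l : ℕ) [Fact l.Prime] (p : ℕ), p.Prime → p ∉ S → p ≠ l →
    ∀ 𝔓 : Ideal (integralClosure ℤ (AlgebraicClosure F)), Over p 𝔓 →
    ∀ σ : Gal F, CongPow 𝔓 1 σ → ρ l σ = 1
  /-- potentially semistable reduction in `S` (Grothendieck's monodromy theorem): inertia acts
  quasi-unipotently -/
  semistable : ∀ (l : ℕ) [Fact l.Prime], ∃ e : ℕ, 1 ≤ e ∧
    ∀ p : ℕ, p ∈ S → p ≠ l → ∀ 𝔓 : Ideal (integralClosure ℤ (AlgebraicClosure F)), Over p 𝔓 →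
    ∀ σ : Gal F, CongPow 𝔓 1 σ → (mat (ρ l) σ ^ e - 1) ^ n = 0
  /-- purity outside `S` (Deligne): the characteristic polynomial of a (power of a) geometric
  Frobenius divides an integral polynomial with roots of absolute value `p ^ (k w / 2)` -/
  pure : ∀ p : ℕ, p.Prime → p ∉ S →
    ∀ 𝔓 : Ideal (integralClosure ℤ (AlgebraicClosure F)), Over p 𝔓 →
    ∀ (k : ℕ) (σ : Gal F), 1 ≤ k → CongPow 𝔓 (p ^ k) σ → ∀ (l : ℕ) [Fact l.Prime], l ≠ p →
      ∃ P : Polynomial ℤ, P.Monic ∧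
        (∀ z : ℂ, (P.map (Int.castRingHom ℂ)).IsRoot z → ‖z‖ ^ 2 = (p : ℝ) ^ (k * w)) ∧
        (mat (ρ l) σ⁻¹).charpoly ∣ P.map (Int.castRingHom ℚ_[l])
  /-- `p`-adic Hodge theory at the places over `l` (the realisation is potentially semistable there
  with Hodge-Tate weights `h`): the determinant of a subrepresentation is on inertia, up to roots of
  unity, a power of the cyclotomic character, and the exponent is given by Hodge types -/
  hodgeTate : ∀ (l : ℕ) [Fact l.Prime] (m : ℕ) (B : Matrix (Fin n) (Fin m) ℚ_[l])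
    (A : Gal F → Matrix (Fin m) (Fin m) ℚ_[l]), IsSub (mat (ρ l)) B A → ∃ e : ℕ, 1 ≤ e ∧
      ∀ 𝔓 : Ideal (integralClosure ℤ (AlgebraicClosure F)), Over l 𝔓 →
      ∃ J : Finset (Fin n), J.card = m ∧ ∀ σ : Gal F, CongPow 𝔓 1 σ →
        ((A σ).det * (((cyc l F σ : ℤ_[l]ˣ) : ℤ_[l]) : ℚ_[l]) ^ (∑ j ∈ J, h j)) ^ e = 1
  /-- Sen's theorem at a place over `l`: over an extension `C` of `ℚ_l` the Lie algebra of the image
  of every open subgroup contains a diagonalisable operator with eigenvalues `h`. -/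
  sen : ∀ (l : ℕ) [Fact l.Prime], ∃ (C : Type) (_ : Field C) (_ : Algebra ℚ_[l] C)
    (P : Matrix.GeneralLinearGroup (Fin n) C), ∀ H : Subgroup (Gal F), IsOpen (H : Set (Gal F)) →
    ∀ f : MvPolynomial (Fin n × Fin n) ℚ_[l], (∀ σ ∈ H, ev (mat (ρ l) σ) f = 0) →
      ∑ i, ∑ j, ((P : Matrix (Fin n) (Fin n) C) * Matrix.diagonal (fun j => (h j : C)) *
        ((P⁻¹ : Matrix.GeneralLinearGroup (Fin n) C) : Matrix (Fin n) (Fin n) C)) i j *
          algebraMap ℚ_[l] C (ev 1 (MvPolynomial.pderiv (i, j) f)) = 0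
  /-- the polarisation `V ⊗ V → ℚ(- w)` -/
  ψ : Matrix (Fin n) (Fin n) ℚ
  ψ_det : ψ.det ≠ 0
  ψ_sym : ψ.transpose = (-1 : ℚ) ^ w • ψ
  ψ_gal : ∀ (l : ℕ) [Fact l.Prime] (g : Gal F),
    (((cyc l F g : ℤ_[l]ˣ) : ℤ_[l]) : ℚ_[l]) ^ w •
      ((mat (ρ l) g).transpose * bas ℚ_[l] ψ * mat (ρ l) g) = bas ℚ_[l] ψ
  /-- the Hodge structure: the column `j` of this matrix is of type `(h j, w - h j)` -/
  hodge : Matrix.GeneralLinearGroup (Fin n) ℂ
  hodge_le : ∀ j, h j ≤ w
  /-- Hodge symmetry -/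
  hodge_conj : ∀ i j, (((hodge⁻¹ : Matrix.GeneralLinearGroup (Fin n) ℂ) :
    Matrix (Fin n) (Fin n) ℂ) * (hodge : Matrix (Fin n) (Fin n) ℂ).map (starRingEnd ℂ)) i j ≠ 0 →
      h i + h j = w
  /-- the Riemann relations -/
  hodge_ψ : ∀ i j, ((hodge : Matrix (Fin n) (Fin n) ℂ).transpose * bas ℂ ψ *
    (hodge : Matrix (Fin n) (Fin n) ℂ)) i j ≠ 0 → h i + h j = w
  hodge_pos : ∀ (r : ℕ) (v : Fin n → ℂ), v ≠ 0 → (∀ j, h j ≠ r → v j = 0) →
    0 < (Complex.I ^ r * (-Complex.I) ^ (w - r) *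
      dotProduct ((hodge : Matrix (Fin n) (Fin n) ℂ).mulVec v)
        ((bas ℂ ψ).mulVec (star ((hodge : Matrix (Fin n) (Fin n) ℂ).mulVec v)))).re
  /-- the motivic (motivated or absolute Hodge) classes over `F` in `T^(a,b)`: they are rational,
  invariant under the Galois group, Hodge, and contain the class of the polarisation -/
  mot : ∀ a b : ℕ, Set (Tensor n a b ℚ)
  mot_gal : ∀ a b, ∀ t ∈ mot a b, ∀ (l : ℕ) [Fact l.Prime] (g : Gal F),
    act (ρ l g) (t.base ℚ_[l]) = t.base ℚ_[l]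
  mot_hodge : ∀ a b, ∀ t ∈ mot a b, ∀ z : ℂˣ, act (hz hodge h w z) (t.base ℂ) = t.base ℂ
  mot_pol : polTen ψ ∈ mot 2 2

/-- the points over `K` of the Zariski closure (over `K₀`, in `GL_n`) of a set `X` of matrices -/
def ZC {K₀ : Type} [Field K₀] {n : ℕ} (X : Set (Matrix.GeneralLinearGroup (Fin n) K₀))
    (K : Type) [Field K] [Algebra K₀ K] : Set (Matrix.GeneralLinearGroup (Fin n) K) :=
  {g | ∀ f : MvPolynomial (Fin n × Fin n) K₀,
    (∀ x ∈ X, ev (x : Matrix (Fin n) (Fin n) K₀) f = 0) →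
      ev (g : Matrix (Fin n) (Fin n) K) f = 0}

/-- the points over `K` of the group of similitudes of `ψ` -/
def Sim {n : ℕ} (ψ : Matrix (Fin n) (Fin n) ℚ) (K : Type) [Field K] :
    Set (Matrix.GeneralLinearGroup (Fin n) K) :=
  {g | ∃ c : K, (g : Matrix (Fin n) (Fin n) K).transpose * bas K ψ *
    (g : Matrix (Fin n) (Fin n) K) = c • bas K ψ}

variable {F : Type} [Field F] [NumberField F] {S : Finset ℕ} {n w : ℕ} {h : Fin n → ℕ}

/-- the points over `K` of the `l`-adic monodromy group: the Zariski closure of the image of the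
absolute Galois group of `F` -/
def PMot.Gl (M : PMot F S n w h) (l : ℕ) [Fact l.Prime] (K : Type) [Field K] [Algebra ℚ_[l] K] :
    Set (Matrix.GeneralLinearGroup (Fin n) K) :=
  ZC (Set.range (M.ρ l)) K

/-- the points over `K` of its identity component: the intersection of the Zariski closures of the
images of the open subgroups -/
def PMot.Gl0 (M : PMot F S n w h) (l : ℕ) [Fact l.Prime] (K : Type) [Field K] [Algebra ℚ_[l] K] :
    Set (Matrix.GeneralLinearGroup (Fin n) K) :=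
  {g | ∀ H : Subgroup (Gal F), IsOpen (H : Set (Gal F)) → g ∈ ZC (M.ρ l '' H) K}

/-- the points over `K` of the motivic Galois group of `M`: the stabiliser of the motivic classes -/
def PMot.Gmot (M : PMot F S n w h) (K : Type) [Field K] :
    Set (Matrix.GeneralLinearGroup (Fin n) K) :=
  {g | ∀ a b, ∀ t ∈ M.mot a b, act g (t.base K) = t.base K}

/-- the Hodge classes in `T^(a,b)` -/
def PMot.IsHodge (M : PMot F S n w h) {a b : ℕ} (t : Tensor n a b ℚ) : Prop :=
  ∀ z : ℂˣ, act (hz M.hodge h w z) (t.base ℂ) = t.base ℂ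

/-- the points over `K` of the Mumford-Tate group of `M`: the stabiliser of the Hodge classes -/
def PMot.Gsigma (M : PMot F S n w h) (K : Type) [Field K] :
    Set (Matrix.GeneralLinearGroup (Fin n) K) :=
  {g | ∀ (a b : ℕ) (t : Tensor n a b ℚ), M.IsHodge t → act g (t.base K) = t.base K}

/-- Maximally unipotent monodromy of the `l`-adic realisation at the places over `p₀` (after a
finite extension): an inertia element `τ` acts by a unipotent matrix with a single Jordan block, and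
Frobenius elements `g` conjugate it to a power. -/
def PMot.MaxUnip (M : PMot F S n w h) (l : ℕ) [Fact l.Prime] (p₀ : ℕ) : Prop :=
  ∀ 𝔓 : Ideal (integralClosure ℤ (AlgebraicClosure F)), Over p₀ 𝔓 →
    ∃ τ : Gal F, CongPow 𝔓 1 τ ∧ (mat (M.ρ l) τ - 1) ^ n = 0 ∧
      (mat (M.ρ l) τ - 1) ^ (n - 1) ≠ 0 ∧
      ∀ (k : ℕ) (g : Gal F), 1 ≤ k → CongPow 𝔓 (p₀ ^ k) g →
        M.ρ l (g * τ * g⁻¹) = (M.ρ l τ) ^ (p₀ ^ k)

/-- Criteria for the image to be large: the rank is at most `3`; or some Galois element acts as a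
unipotent matrix different from `1` with more than one Jordan block; or as a pseudo-reflection; or
its characteristic polynomial does not have its roots in geometric progression (in any extension
field of `ℚ_l`; or in `ℂ` if it has integral coefficients, for instance for a Frobenius); or the
Hodge types are not in arithmetic progression. -/
def PMot.Crit (M : PMot F S n w h) (l : ℕ) [Fact l.Prime] : Prop :=
  n ≤ 3 ∨ (∃ g : Gal F, mat (M.ρ l) g ≠ 1 ∧ (mat (M.ρ l) g - 1) ^ (n - 1) = 0) ∨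
  (∃ g : Gal F, (mat (M.ρ l) g - 1).rank = 1) ∨
  (∃ g : Gal F, ∀ (C : Type) [Field C] [Algebra ℚ_[l] C] (c r : C),
    (mat (M.ρ l) g).charpoly.map (algebraMap ℚ_[l] C) ≠
      ∏ j : Fin n, (Polynomial.X - Polynomial.C (c * r ^ (j : ℕ)))) ∨
  (∃ (g : Gal F) (P : Polynomial ℤ), (mat (M.ρ l) g).charpoly = P.map (Int.castRingHom ℚ_[l]) ∧
    ∀ c r : ℂ, P.map (Int.castRingHom ℂ) ≠
      ∏ j : Fin n, (Polynomial.X - Polynomial.C (c * r ^ (j : ℕ)))) ∨
  ¬ ∃ (e : Equiv.Perm (Fin n)) (a d : ℚ), ∀ j : Fin n, (h (e j) : ℚ) = a + d * (j : ℕ)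

end MT
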