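import Pool.Agent.Helper40.MT.Stmts

/-!
# Version 2: maximally unipotent monodromy at some place; also for the places over `l`
-/

set_option autoImplicit false

open NumberField MU

namespace MT

variable {F : Type} [Field F] [NumberField F] {S : Finset ℕ} {n w : ℕ} {h : Fin n → ℕ}

/-- Maximally unipotent monodromy of the `l`-adic realisation at the prime `𝔓` over `p`, `p ≠ l`:
an inertia element `τ` acts by a unipotent matrix with a single Jordan block, and Frobenius elements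
`g` conjugate it to a power. -/
def PMot.MumAt (M : PMot F S n w h) (l : ℕ) [Fact l.Prime] (p : ℕ)
    (𝔓 : Ideal (integralClosure ℤ (AlgebraicClosure F))) : Prop :=
  ∃ τ : Gal F, CongPow 𝔓 1 τ ∧ (mat (M.ρ l) τ - 1) ^ n = 0 ∧ (mat (M.ρ l) τ - 1) ^ (n - 1) ≠ 0 ∧
    ∀ (k : ℕ) (g : Gal F), 1 ≤ k → CongPow 𝔓 (p ^ k) g →
      M.ρ l (g * τ * g⁻¹) = (M.ρ l τ) ^ (p ^ k)

/-- Purity of the `l`-adic realisation at the prime `𝔓` over `p`, `p ≠ l` (for instance, potentially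
good reduction): the characteristic polynomial of a (power of a) geometric Frobenius divides an
integral polynomial with roots of absolute value `p ^ (k w / 2)`. -/
def PMot.PureAt (M : PMot F S n w h) (l : ℕ) [Fact l.Prime] (p : ℕ)
    (𝔓 : Ideal (integralClosure ℤ (AlgebraicClosure F))) : Prop :=
  ∀ (k : ℕ) (σ : Gal F), 1 ≤ k → CongPow 𝔓 (p ^ k) σ → ∃ P : Polynomial ℤ, P.Monic ∧
    (∀ z : ℂ, (P.map (Int.castRingHom ℂ)).IsRoot z → ‖z‖ ^ 2 = (p : ℝ) ^ (k * w)) ∧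
    (mat (M.ρ l) σ⁻¹).charpoly ∣ P.map (Int.castRingHom ℚ_[l])

/-- Maximally unipotent monodromy of the `l`-adic realisation at the places over `l`. Its filtered
`(φ, N)`-modules give (1) the Hodge-Tate weights of the determinants of subrepresentations, and
(2) over some extension `C` of `ℚ_l`: the monodromy operator `N`, a nilpotent matrix with a
single Jordan block in the Lie algebra of the image of every open subgroup `H`, and the inverse
`x` of a linear power of `φ`, of which a power is in the Zariski closure of the image of `H`. -/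
def PMot.MumCrys (M : PMot F S n w h) (l : ℕ) [Fact l.Prime] : Prop :=
  (∀ (m : ℕ) (B : Matrix (Fin n) (Fin m) ℚ_[l]) (A : Gal F → Matrix (Fin m) (Fin m) ℚ_[l]),
    IsSub (mat (M.ρ l)) B A → ∃ e : ℕ, 1 ≤ e ∧
      ∀ 𝔓 : Ideal (integralClosure ℤ (AlgebraicClosure F)), Over l 𝔓 →
      ∀ σ : Gal F, CongPow 𝔓 1 σ → ((A σ).det ^ 2 *
        (((cyc l F σ : ℤ_[l]ˣ) : ℤ_[l]) : ℚ_[l]) ^ ((m : ℤ) * (w + m - n))) ^ e = 1) ∧
  ∃ (C : Type) (_ : Field C) (_ : Algebra ℚ_[l] C) (N : Matrix (Fin n) (Fin n) C)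
    (x : Matrix.GeneralLinearGroup (Fin n) C) (q : ℕ), 2 ≤ q ∧ N ^ n = 0 ∧ N ^ (n - 1) ≠ 0 ∧
    (x : Matrix (Fin n) (Fin n) C) * N = (q : C) • (N * (x : Matrix (Fin n) (Fin n) C)) ∧
    (q : C) ^ w • ((x : Matrix (Fin n) (Fin n) C).transpose * bas C M.ψ *
      (x : Matrix (Fin n) (Fin n) C)) = bas C M.ψ ∧
    ∀ H : Subgroup (Gal F), IsOpen (H : Set (Gal F)) →
      (∀ f : MvPolynomial (Fin n × Fin n) ℚ_[l], (∀ σ ∈ H, ev (mat (M.ρ l) σ) f = 0) →
        ∑ i, ∑ j, N i j * algebraMap ℚ_[l] C (ev 1 (MvPolynomial.pderiv (i, j) f)) = 0) ∧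
      ∃ j : ℕ, 1 ≤ j ∧ x ^ j ∈ ZC (M.ρ l '' H) C

/-- Maximally unipotent monodromy of the `l`-adic realisation at some place over `p₀`; at the other
places over `p₀` it also has maximally unipotent monodromy, or (if `p₀ ≠ l`) it is pure. -/
def PMot.Mum (M : PMot F S n w h) (l : ℕ) [Fact l.Prime] (p₀ : ℕ) : Prop :=
  (p₀ ≠ l ∧ (∃ 𝔓 : Ideal (integralClosure ℤ (AlgebraicClosure F)), Over p₀ 𝔓 ∧
      M.MumAt l p₀ 𝔓) ∧
    ∀ 𝔓 : Ideal (integralClosure ℤ (AlgebraicClosure F)), Over p₀ 𝔓 →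
      M.MumAt l p₀ 𝔓 ∨ M.PureAt l p₀ 𝔓) ∨
  (p₀ = l ∧ M.MumCrys l)

/-- IRM2: irreducibility. -/
def ST_IRM2 : Prop :=
  ∀ (F : Type) [Field F] [NumberField F] (S : Finset ℕ), (∀ p ∈ S, p.Prime) →
    ∀ (n w : ℕ) (h : Fin n → ℕ) (M : PMot F S n w h) (l : ℕ) [Fact l.Prime] (p₀ : ℕ), p₀.Prime →
      M.Mum l p₀ → IsIrr (mat (M.ρ l))

/-- ABS: absolute irreducibility in the presence of a regular nilpotent element which commutes with
the commutant. -/
def ST_ABS : Prop :=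
  ∀ (K C : Type) [Field K] [CharZero K] [Field C] [Algebra K C] (n : ℕ)
    (G : Subgroup (Matrix.GeneralLinearGroup (Fin n) K)) (N : Matrix (Fin n) (Fin n) C),
    N ^ n = 0 → N ^ (n - 1) ≠ 0 →
    (∀ u : Matrix (Fin n) (Fin n) K, (∀ g ∈ G, (g : Matrix (Fin n) (Fin n) K) * u =
      u * (g : Matrix (Fin n) (Fin n) K)) → u.map (algebraMap K C) * N =
        N * u.map (algebraMap K C)) →
    (∀ W : Submodule K (Fin n → K), (∀ g ∈ G, ∀ v ∈ W,
      (g : Matrix (Fin n) (Fin n) K).mulVec v ∈ W) → W = ⊥ ∨ W = ⊤) →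
    ∀ W : Submodule C (Fin n → C), (∀ g ∈ G, ∀ v ∈ W,
      ((g : Matrix (Fin n) (Fin n) K).map (algebraMap K C)).mulVec v ∈ W) → W = ⊥ ∨ W = ⊤

/-- MAIN2: the theorem. -/
def ST_MAIN2 : Prop :=
  ∀ (F : Type) [Field F] [NumberField F] (S : Finset ℕ), (∀ p ∈ S, p.Prime) →
    ∀ (n w : ℕ) (h : Fin n → ℕ) (M : PMot F S n w h), 0 < w →
    ∀ (l : ℕ) [Fact l.Prime] (p₀ : ℕ), p₀.Prime → M.Mum l p₀ →
      (n ≠ 7 ∨ ∃ g : Gal F, (mat (M.ρ l) g - 1).rank = 1) → M.Crit l →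
      ∀ (K : Type) [Field K] [Algebra ℚ_[l] K],
        (∀ H : Subgroup (Gal F), IsOpen (H : Set (Gal F)) → ZC (M.ρ l '' H) K = Sim M.ψ K) ∧
        M.Gl l K = M.Gmot K ∧ M.Gl0 l K = M.Gmot K ∧ M.Gmot K = Sim M.ψ K ∧
        M.Gsigma K ⊆ M.Gl0 l K ∧
        ((∀ (a b : ℕ) (t : Tensor n a b ℚ), M.IsHodge t → ∃ H : Subgroup (Gal F),
          IsOpen (H : Set (Gal F)) ∧ ∀ g ∈ H, act (M.ρ l g) (t.base ℚ_[l]) = t.base ℚ_[l]) →
            M.Gl0 l K = M.Gsigma K)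

end MT
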