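import Pool.Agent.Helper40.MT.All2
import Pool.Agent.Helper92.MT.IRM2
import Pool.Agent.Helper85.MU.TRI2
import Pool.Agent.Helper25.MU.TRF2
import Pool.Agent.Helper26.MU.PRO
import Pool.Agent.Helper11.MU.LIN
import Pool.Agent.Helper3.MU.TRC
import Pool.Agent.Helper22.MU.INR

/-!
# The final theorem
-/

set_option autoImplicit false

open NumberField MU

namespace MT

theorem main2 : ST_MAIN2 :=
  all2 (st_IRM2 (st_TRI2 st_IDX (st_TRC st_INR st_CYC st_FRE) (st_TRF2 st_FRE) st_FRE st_CYC)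
    st_PRO st_LIN)

/-- the theorem -/
theorem final (F : Type) [Field F] [NumberField F] (S : Finset ℕ) (hS : ∀ p ∈ S, p.Prime)
    (n w : ℕ) (hw : 0 < w) (h : Fin n → ℕ) (M : PMot F S n w h) (l : ℕ) [Fact l.Prime]
    (p₀ : ℕ) (hp₀ : p₀.Prime) (hM : M.Mum l p₀) (hL : M.Large l) (K : Type) [Field K]
    [Algebra ℚ_[l] K] :
    M.Gl l K = M.Gmot K ∧ M.Gl0 l K = M.Gmot K ∧ M.Gmot K = Sim M.ψ K ∧
      M.Gsigma K ⊆ M.Gl0 l K ∧
      ((∀ (a b : ℕ) (t : Tensor n a b ℚ), M.IsHodge t → ∃ H : Subgroup (Gal F),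
        IsOpen (H : Set (Gal F)) ∧ ∀ g ∈ H, act (M.ρ l g) (t.base ℚ_[l]) = t.base ℚ_[l]) →
        M.Gl0 l K = M.Gsigma K) := by
  obtain ⟨h7, hc⟩ := hL.crit
  exact (main2 F S hS n w h M hw l p₀ hp₀ hM h7 hc K).2

end MT
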