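import Pool.Agent.Helper35.MT.GRD

/-!
# The grading element, from the natural powers of a Frobenius element
-/

set_option autoImplicit false

open scoped Classical
open Matrix

namespace MT

/-- the grading element, from the natural powers of `x` (helper35's proof of GRD) -/
theorem grd_nat (K : Type) [Field K] [CharZero K] (n w q : ℕ) (ψ N : Matrix (Fin n) (Fin n) K)
    (x : Matrix.GeneralLinearGroup (Fin n) K) (hq : 2 ≤ q) (hψ : ψ.det ≠ 0)
    (hxψ : (q : K) ^ w • ((x : Matrix (Fin n) (Fin n) K).transpose * ψ *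
      (x : Matrix (Fin n) (Fin n) K)) = ψ) (h1 : N ^ n = 0) (h2 : N ^ (n - 1) ≠ 0)
    (hxN : (x : Matrix (Fin n) (Fin n) K) * N =
      (q : K) • (N * (x : Matrix (Fin n) (Fin n) K))) :
    ∃ D : Matrix (Fin n) (Fin n) K, D * N - N * D = N ∧
      ∀ f : MvPolynomial (Fin n × Fin n) K,
        (∀ m : ℕ, ev ((x : Matrix (Fin n) (Fin n) K) ^ m) f = 0) →
          ∑ i, ∑ j, D i j * ev (1 : Matrix (Fin n) (Fin n) K) (MvPolynomial.pderiv (i, j) f) =
            0 := by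
  have hq0 : (q : K) ≠ 0 := by exact_mod_cast (by omega : q ≠ 0)
  have hn : 0 < n := by
    rcases Nat.eq_zero_or_pos n with h | h
    · subst h
      exact absurd (Subsingleton.elim _ _) h2
    · exact h
  set x' : Matrix (Fin n) (Fin n) K := (x : Matrix (Fin n) (Fin n) K) with hx'
  have hdx : x'.det ≠ 0 := by
    have h3 := (Matrix.isUnit_iff_isUnit_det x').1 (Units.isUnit x)
    exact h3.ne_zero
  obtain ⟨a, u, ha0, hxu, hu⟩ := grd_eigen q hq x' N hdx h1 h2 hxN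
  let v : ℕ → Fin n → K := fun j => N ^ j *ᵥ u
  have hcom : ∀ j : ℕ, x' * N ^ j = (q : K) ^ j • (N ^ j * x') := by
    intro j
    induction j with
    | zero => simp
    | succ j ih =>
      rw [pow_succ, ← Matrix.mul_assoc, ih, Matrix.smul_mul, Matrix.mul_assoc, hxN,
        Matrix.mul_smul, smul_smul, ← Matrix.mul_assoc, pow_succ]
  have hxv : ∀ j, x' *ᵥ v j = (a * (q : K) ^ j) • v j := by
    intro j
    change x' *ᵥ (N ^ j *ᵥ u) = _
    rw [mulVec_mulVec, hcom, smul_mulVec, ← mulVec_mulVec, hxu, mulVec_smul, smul_smul, mul_comm]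
  have hNv : ∀ j, N *ᵥ v j = v (j + 1) := by
    intro j
    change N *ᵥ (N ^ j *ᵥ u) = N ^ (j + 1) *ᵥ u
    rw [mulVec_mulVec, ← pow_succ']
  have hv0 : ∀ j, j < n → v j ≠ 0 := by
    intro j hj h0
    apply hu
    have h3 : N ^ (n - 1) *ᵥ u = N ^ (n - 1 - j) *ᵥ v j := by
      change _ = N ^ (n - 1 - j) *ᵥ (N ^ j *ᵥ u)
      rw [mulVec_mulVec, ← pow_add]
      congr 2
      omega
    rw [h3, h0, mulVec_zero]
  have hvn : v n = 0 := by
    change N ^ n *ᵥ u = 0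
    rw [h1, zero_mulVec]
  -- independence
  have hinjq : Function.Injective fun j : Fin n => a * (q : K) ^ (j : ℕ) := by
    intro i j h
    have h3 : (q : K) ^ (i : ℕ) = (q : K) ^ (j : ℕ) := mul_left_cancel₀ ha0 h
    have h4 : q ^ (i : ℕ) = q ^ (j : ℕ) := by exact_mod_cast h3
    exact Fin.ext (Nat.pow_right_injective hq h4)
  have hli : LinearIndependent K (fun j : Fin n => v j) := by
    refine Module.End.eigenvectors_linearIndependent' (Matrix.toLin' x')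
      (fun j : Fin n => a * (q : K) ^ (j : ℕ)) hinjq _ fun j => ?_
    rw [Module.End.hasEigenvector_iff, Module.End.mem_eigenspace_iff]
    refine ⟨?_, hv0 j j.2⟩
    rw [Matrix.toLin'_apply]
    exact hxv j
  let Q : Matrix (Fin n) (Fin n) K := Matrix.of fun i j => v j i
  have hQu : IsUnit Q := by
    rw [← Matrix.linearIndependent_cols_iff_isUnit]
    exact hli
  have hQd : IsUnit Q.det := (Matrix.isUnit_iff_isUnit_det Q).1 hQu
  have hQQ : Q * Q⁻¹ = 1 := Matrix.mul_nonsing_inv _ hQd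
  have hQc : ∀ (A : Matrix (Fin n) (Fin n) K) (i j : Fin n), (A * Q) i j = (A *ᵥ v j) i := by
    intro A i j
    rw [Matrix.mul_apply]
    rfl
  have hxQ : x' * Q = Q * Matrix.diagonal (fun j : Fin n => a * (q : K) ^ (j : ℕ)) := by
    ext i j
    rw [hQc, hxv, Matrix.mul_diagonal, Pi.smul_apply, smul_eq_mul, mul_comm]
    rfl
  -- the weight
  obtain ⟨j0, hj0⟩ : ∃ j0 : Fin n, a ^ 2 * (q : K) ^ (j0 : ℕ) * (q : K) ^ w = 1 := by
    by_contra hcon
    push Not at hcon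
    have h3 : ∀ j : Fin n, v 0 ⬝ᵥ (ψ *ᵥ v j) = 0 := by
      intro j
      have h4 : (q : K) ^ w * ((x' *ᵥ v 0) ⬝ᵥ (ψ *ᵥ (x' *ᵥ v j))) = v 0 ⬝ᵥ (ψ *ᵥ v j) := by
        conv_rhs => rw [← hxψ]
        rw [smul_mulVec, dotProduct_smul, smul_eq_mul, Matrix.mul_assoc, ← mulVec_mulVec (v j) x'ᵀ,
          dotProduct_mulVec (v 0) x'ᵀ, vecMul_transpose, mulVec_mulVec (v j) ψ x']
      rw [hxv, hxv, pow_zero, mul_one, smul_dotProduct, mulVec_smul, dotProduct_smul, smul_eq_mul,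
        smul_eq_mul] at h4
      have h5 : (a ^ 2 * (q : K) ^ (j : ℕ) * (q : K) ^ w - 1) * (v 0 ⬝ᵥ (ψ *ᵥ v j)) = 0 := by
        rw [sub_mul, one_mul, sub_eq_zero]
        conv_rhs => rw [← h4]
        ring
      exact (mul_eq_zero.1 h5).resolve_left (sub_ne_zero.2 (hcon j))
    have h6 : (v 0 ᵥ* ψ) ᵥ* Q = 0 := by
      funext j
      have h7 := h3 j
      rw [dotProduct_mulVec] at h7
      exact h7
    have h8 : v 0 ᵥ* ψ = 0 := by
      have h9 : (v 0 ᵥ* ψ) ᵥ* Q ᵥ* Q⁻¹ = v 0 ᵥ* ψ := by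
        rw [vecMul_vecMul, hQQ, vecMul_one]
      rw [← h9, h6, zero_vecMul]
    have h10 : v 0 = 0 := by
      by_contra h11
      exact hψ (Matrix.exists_vecMul_eq_zero_iff.1 ⟨v 0, h11, h8⟩)
    exact hv0 0 hn h10
  let r : Fin n → ℤ := fun i => 2 * (i : ℤ) - (j0 : ℤ) - (w : ℤ)
  have hl : ∀ i : Fin n, (a * (q : K) ^ (i : ℕ)) ^ 2 = (q : K) ^ (r i) := by
    intro i
    have h3 : (q : K) ^ (r i) * ((q : K) ^ (j0 : ℕ) * (q : K) ^ w) = ((q : K) ^ (i : ℕ)) ^ 2 := by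
      rw [← zpow_natCast (q : K) (j0 : ℕ), ← zpow_natCast (q : K) w, ← zpow_natCast (q : K) (i : ℕ),
        ← zpow_add₀ hq0, ← zpow_add₀ hq0, ← zpow_natCast, ← _root_.zpow_mul]
      congr 1
      change 2 * (i : ℤ) - (j0 : ℤ) - (w : ℤ) + ((j0 : ℕ) + (w : ℤ)) = (i : ℤ) * ((2 : ℕ) : ℤ)
      push_cast
      ring
    have h4 : (q : K) ^ (j0 : ℕ) * (q : K) ^ w ≠ 0 :=
      mul_ne_zero (pow_ne_zero _ hq0) (pow_ne_zero _ hq0)
    apply mul_right_cancel₀ h4
    rw [h3, mul_pow]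
    calc a ^ 2 * ((q : K) ^ (i : ℕ)) ^ 2 * ((q : K) ^ (j0 : ℕ) * (q : K) ^ w)
        = (a ^ 2 * (q : K) ^ (j0 : ℕ) * (q : K) ^ w) * ((q : K) ^ (i : ℕ)) ^ 2 := by ring
      _ = ((q : K) ^ (i : ℕ)) ^ 2 := by rw [hj0, one_mul]
  set M : Matrix (Fin n) (Fin n) K :=
    Q * Matrix.diagonal (fun i => ((r i : ℤ) : K)) * Q⁻¹ with hM
  have hMX : ∀ f : MvPolynomial (Fin n × Fin n) K, (∀ m : ℕ, ev (x' ^ m) f = 0) →
      ∑ i, ∑ j, ((2 : K)⁻¹ • M) i j *
        ev (1 : Matrix (Fin n) (Fin n) K) (MvPolynomial.pderiv (i, j) f) = 0 := by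
    intro f hf
    have h3 := grd_torus q hq x' Q Q⁻¹ hQQ _ hxQ r hl f hf
    rw [grd_ldv] at h3
    simp only [Matrix.smul_apply, smul_eq_mul, mul_assoc, ← Finset.mul_sum]
    rw [h3, mul_zero]
  refine ⟨(2 : K)⁻¹ • M, ?_, hMX⟩
  -- the commutator
  have hMQ : M * Q = Q * Matrix.diagonal (fun i => ((r i : ℤ) : K)) := by
    rw [hM, Matrix.mul_assoc, Matrix.nonsing_inv_mul _ hQd, Matrix.mul_one]
  have hMv : ∀ j : Fin n, M *ᵥ v j = ((r j : ℤ) : K) • v j := by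
    intro j
    funext i
    have h3 := congrFun (congrFun hMQ i) j
    rw [hQc, Matrix.mul_diagonal] at h3
    rw [h3, Pi.smul_apply, smul_eq_mul, mul_comm]
    rfl
  have hcomm : M * N - N * M = (2 : K) • N := by
    have h3 : (M * N - N * M) * Q = ((2 : K) • N) * Q := by
      ext i j
      rw [hQc, hQc, sub_mulVec, ← mulVec_mulVec (v j) M N, ← mulVec_mulVec (v j) N M, hNv, hMv,
        mulVec_smul, hNv, smul_mulVec, hNv]
      by_cases hj : (j : ℕ) + 1 < n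
      · have h4 := hMv ⟨(j : ℕ) + 1, hj⟩
        have h5 : ((r ⟨(j : ℕ) + 1, hj⟩ : ℤ) : K) - ((r j : ℤ) : K) = 2 := by
          change (((2 * (((j : ℕ) + 1 : ℕ) : ℤ) - (j0 : ℤ) - (w : ℤ) : ℤ)) : K) -
            ((2 * (((j : ℕ) : ℕ) : ℤ) - (j0 : ℤ) - (w : ℤ) : ℤ) : K) = 2
          push_cast
          ring
        rw [h4, ← sub_smul, h5]
      · have h4 : (j : ℕ) + 1 = n := by
          have := j.2
          omega
        rw [h4, hvn, mulVec_zero, smul_zero, sub_zero, smul_zero]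
    have h5 := congrArg (fun A => A * Q⁻¹) h3
    simp only [Matrix.mul_assoc, hQQ, Matrix.mul_one] at h5
    exact h5
  rw [Matrix.smul_mul, Matrix.mul_smul, ← smul_sub, hcomm, smul_smul, inv_mul_cancel₀ two_ne_zero,
    one_smul]

end MT
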