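import Pool.Agent.Helper40.MT.Main
import Pool.Agent.Helper40.MT.CoreExt2
import Pool.Agent.Helper40.MT.GrdN

/-!
# The regular nilpotent element and the grading element in version 2
-/

set_option autoImplicit false

open NumberField MU

namespace MT

variable {F : Type} [Field F] [NumberField F] {S : Finset ℕ} {n w : ℕ} {h : Fin n → ℕ}

/-- every prime over `p` has a Frobenius element in the Galois group of `F` -/
theorem exists_frob_at (idx : ST_IDX) (fre : ST_FRE) (p : ℕ) (hp : p.Prime)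
    (𝔓 : Ideal (integralClosure ℤ (AlgebraicClosure F))) (h𝔓 : Over p 𝔓) :
    ∃ (k : ℕ) (g : Gal F), 1 ≤ k ∧ CongPow 𝔓 (p ^ k) g := by
  obtain ⟨H, e, he, hopen, hcont, hcont', hind⟩ := idx F
  obtain ⟨⟨𝔓₀, h𝔓₀, φ, hφ⟩, htr⟩ := fre F p hp
  obtain ⟨g₀, hg₀⟩ := htr 𝔓₀ 𝔓 h𝔓₀ h𝔓
  have hne : H.index ≠ 0 := by
    rw [hind]
    exact (Module.finrank_pos (R := ℚ) (M := F)).ne'
  have h1 : tp g₀⁻¹ 𝔓₀ = 𝔓 := by
    ext x
    rw [mem_tp]
    have h2 := hg₀ (sm g₀⁻¹ x) x (by rw [sm_coe, ← AlgEquiv.mul_apply, mul_inv_cancel]; rfl)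
    exact h2
  have h3 : CP 𝔓 p (g₀ * φ * g₀⁻¹) := by
    have h4 := congPow_conj 𝔓₀ p φ g₀⁻¹ hφ
    rw [inv_inv, h1] at h4
    exact h4
  obtain ⟨k, hk, -, hmem⟩ := Subgroup.exists_pow_mem_of_index_ne_zero hne (g₀ * φ * g₀⁻¹)
  refine ⟨k, e.symm ⟨(g₀ * φ * g₀⁻¹) ^ k, hmem⟩, hk, ?_⟩
  exact congPow_esymm H e he 𝔓 (p ^ k) ⟨(g₀ * φ * g₀⁻¹) ^ k, hmem⟩
    (congPow_pow 𝔓 p _ h3 k)

/-- infinitely many multipliers -/
theorem PMot.exists_mult (idx : ST_IDX) (fre : ST_FRE) (hcyc : ST_CYC) (l : ℕ) [Fact l.Prime]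
    (H : Subgroup (Gal F)) (e : ℕ) (he : 1 ≤ e) (hHe : ∀ g : Gal F, g ^ e ∈ H) :
    ∃ (q : ℕ) (g : Gal F), g ∈ H ∧ 2 ≤ q ∧
      (((cyc l F g : ℤ_[l]ˣ) : ℤ_[l]) : ℚ_[l]) = (q : ℚ_[l]) := by
  obtain ⟨p, hp, hpl⟩ : ∃ p : ℕ, p.Prime ∧ p ≠ l := by
    by_cases h2 : l = 2
    · exact ⟨3, Nat.prime_three, by rw [h2]; decide⟩
    · exact ⟨2, Nat.prime_two, fun h => h2 h.symm⟩
  obtain ⟨𝔓, k, g, h𝔓, hk, hg⟩ := exists_frob (F := F) idx fre p hp
  have hge : CongPow 𝔓 (p ^ (k * e)) (g ^ e : Gal F) := by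
    have := congPow_pow 𝔓 (p ^ k) g hg e
    rwa [← pow_mul] at this
  have hke : 1 ≤ k * e := Nat.mul_pos hk he
  refine ⟨p ^ (k * e), g ^ e, hHe g, ?_, ?_⟩
  · calc 2 ≤ p := hp.two_le
      _ = p ^ 1 := (pow_one _).symm
      _ ≤ p ^ (k * e) := Nat.pow_le_pow_right hp.pos hke
  · have h1 := hcyc F F l p hp hpl 𝔓 h𝔓 (k * e) (g ^ e) hge
    rw [h1]
    push_cast
    rfl

/-- the regular nilpotent element and the grading element -/
theorem PMot.exists_N2 (M : PMot F S n w h) (zar : ST_ZAR) (log : ST_LOG) (grd : ST_GRD)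
    (idx : ST_IDX) (fre : ST_FRE) (hcyc : ST_CYC) (l : ℕ) [Fact l.Prime] (p₀ : ℕ)
    (hp₀ : p₀.Prime) (hM : M.Mum l p₀) (H : Subgroup (Gal F)) (hH : IsOpen (H : Set (Gal F)))
    (e : ℕ) (he : 1 ≤ e) (hHe : ∀ g : Gal F, g ^ e ∈ H) :
    ∃ (C : Type) (_ : Field C) (_ : Algebra ℚ_[l] C) (N D : Matrix (Fin n) (Fin n) C),
      N ∈ spn C (LieZ (H.map (M.ρ l))) ∧ N ^ n = 0 ∧ N ^ (n - 1) ≠ 0 ∧
      D ∈ spn C (LieZ (H.map (M.ρ l))) ∧ D * N - N * D = N := by
  rcases hM with ⟨hl, ⟨𝔓, h𝔓, τ, hτ, hτ1, hτ2, hτ3⟩, -⟩ | ⟨rfl, -, C, _, _, N, x, q, hq, hN1, hN2,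
    hxN, hxψ, hH2⟩
  · obtain ⟨k, g, hk, hg⟩ := exists_frob_at (F := F) idx fre p₀ hp₀ 𝔓 h𝔓
    have hge : CongPow 𝔓 (p₀ ^ (k * e)) (g ^ e : Gal F) := by
      have := congPow_pow 𝔓 (p₀ ^ k) g hg e
      rwa [← pow_mul] at this
    have hke : 1 ≤ k * e := Nat.mul_pos hk he
    set q := p₀ ^ (k * e) with hq
    have hq2 : 2 ≤ q := by
      calc 2 ≤ p₀ := hp₀.two_le
        _ = p₀ ^ 1 := (pow_one _).symm
        _ ≤ p₀ ^ (k * e) := Nat.pow_le_pow_right hp₀.pos hke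
    have hcg : (((cyc l F (g ^ e) : ℤ_[l]ˣ) : ℤ_[l]) : ℚ_[l]) = (q : ℚ_[l]) := by
      have h1 := hcyc F F l p₀ hp₀ hl 𝔓 h𝔓 (k * e) (g ^ e) hge
      rw [h1, hq]
      push_cast
      rfl
    obtain ⟨ht1, ht2⟩ := unip_pow (mat (M.ρ l) τ) hτ1 hτ2 e he
    have hconj : M.ρ l (g ^ e) * M.ρ l (τ ^ e) * (M.ρ l (g ^ e))⁻¹ = M.ρ l (τ ^ e) ^ q := by
      have h1 := hτ3 (k * e) (g ^ e) hke hge
      rw [← map_inv, ← map_mul, ← map_mul]
      have h2 : g ^ e * τ ^ e * (g ^ e)⁻¹ = (g ^ e * τ * (g ^ e)⁻¹) ^ e := by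
        rw [conj_pow]
      rw [h2, map_pow, h1, map_pow, ← pow_mul, ← pow_mul, mul_comm]
    have hcoe : ∀ x : Gal F, ((M.ρ l x : Matrix.GeneralLinearGroup (Fin n) ℚ_[l]) :
        Matrix (Fin n) (Fin n) ℚ_[l]) = mat (M.ρ l) x := fun _ => rfl
    obtain ⟨N, hN, hN1, hN2, hN3⟩ := log ℚ_[l] n (H.map (M.ρ l)) (M.ρ l (τ ^ e))
      (Subgroup.mem_map_of_mem _ (hHe τ)) (M.ρ l (g ^ e)) q
      (by rw [hcoe, map_pow]; exact ht1) (by rw [hcoe, map_pow]; exact ht2) hconj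
    obtain ⟨D, hD, hD1⟩ := grd ℚ_[l] n w q (bas ℚ_[l] M.ψ) N (H.map (M.ρ l)) (M.ρ l (g ^ e))
      (Subgroup.mem_map_of_mem _ (hHe g)) hq2 (bas_det _ _ M.ψ_det)
      (by
        have h1 := M.ψ_gal l (g ^ e)
        rw [hcg] at h1
        exact h1) hN1 hN2 hN3
    have hid : ∀ A : Matrix (Fin n) (Fin n) ℚ_[l], A.map (algebraMap ℚ_[l] ℚ_[l]) = A := by
      intro A
      ext i j
      simp
    refine ⟨ℚ_[l], inferInstance, inferInstance, N, D, ?_, hN1, hN2, ?_, hD1⟩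
    · rw [← hid N]
      exact mem_spn _ hN
    · rw [← hid D]
      exact mem_spn _ hD
  · haveI : CharZero C := charZero_of_injective_algebraMap (algebraMap ℚ_[p₀] C).injective
    obtain ⟨hNH, j, hj, hxj⟩ := hH2 H hH
    have hmul := (zar ℚ_[p₀] n (H.map (M.ρ p₀))).2.2.2.2 C
    have hone : (1 : Matrix.GeneralLinearGroup (Fin n) C) ∈
        ZC (H.map (M.ρ p₀) : Set (Matrix.GeneralLinearGroup (Fin n) ℚ_[p₀])) C := by
      intro f hf
      have h1 := hf 1 (Subgroup.one_mem _)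
      have h2 := ev_map (algebraMap ℚ_[p₀] C) (fun _ => rfl)
        (1 : Matrix (Fin n) (Fin n) ℚ_[p₀]) f
      rw [Matrix.map_one _ (map_zero _) (map_one _)] at h2
      rw [Units.val_one, ← h2]
      rw [Units.val_one] at h1
      rw [h1, map_zero]
    have hpow : ∀ m : ℕ, (x ^ j) ^ m ∈
        ZC (H.map (M.ρ p₀) : Set (Matrix.GeneralLinearGroup (Fin n) ℚ_[p₀])) C := by
      intro m
      induction m with
      | zero => rw [pow_zero]; exact hone
      | succ m ih =>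
        rw [pow_succ]
        exact hmul _ ih _ hxj
    have hxjN : ∀ j : ℕ, (x : Matrix (Fin n) (Fin n) C) ^ j * N =
        (q : C) ^ j • (N * (x : Matrix (Fin n) (Fin n) C) ^ j) := by
      intro j
      induction j with
      | zero => simp
      | succ j ih =>
        rw [pow_succ', Matrix.mul_assoc, ih, Matrix.mul_smul, ← Matrix.mul_assoc, hxN,
          Matrix.smul_mul, smul_smul, Matrix.mul_assoc, ← pow_succ]
    have hxjψ : ∀ j : ℕ, ((q : C) ^ j) ^ w • (((x : Matrix (Fin n) (Fin n) C) ^ j).transpose *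
        bas C M.ψ * (x : Matrix (Fin n) (Fin n) C) ^ j) = bas C M.ψ := by
      intro j
      induction j with
      | zero => simp
      | succ j ih =>
        have h1 : ((x : Matrix (Fin n) (Fin n) C) ^ (j + 1)).transpose * bas C M.ψ *
            (x : Matrix (Fin n) (Fin n) C) ^ (j + 1) =
            ((x : Matrix (Fin n) (Fin n) C) ^ j).transpose *
              ((x : Matrix (Fin n) (Fin n) C).transpose * bas C M.ψ *
                (x : Matrix (Fin n) (Fin n) C)) * (x : Matrix (Fin n) (Fin n) C) ^ j := by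
          rw [pow_succ', Matrix.transpose_mul]
          simp only [Matrix.mul_assoc]
        have h2 : ((q : C) ^ (j + 1)) ^ w = ((q : C) ^ j) ^ w * (q : C) ^ w := by
          rw [pow_succ, mul_pow]
        have h3 : (q : C) ^ w • (((x : Matrix (Fin n) (Fin n) C) ^ j).transpose *
              ((x : Matrix (Fin n) (Fin n) C).transpose * bas C M.ψ *
                (x : Matrix (Fin n) (Fin n) C)) * (x : Matrix (Fin n) (Fin n) C) ^ j) =
            ((x : Matrix (Fin n) (Fin n) C) ^ j).transpose *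
              ((q : C) ^ w • ((x : Matrix (Fin n) (Fin n) C).transpose * bas C M.ψ *
                (x : Matrix (Fin n) (Fin n) C))) * (x : Matrix (Fin n) (Fin n) C) ^ j := by
          rw [Matrix.mul_smul, Matrix.smul_mul]
        rw [h1, h2, mul_smul, h3, hxψ, ih]
    have hq2 : 2 ≤ q ^ j := by
      calc 2 ≤ q := hq
        _ = q ^ 1 := (pow_one _).symm
        _ ≤ q ^ j := Nat.pow_le_pow_right (by omega) hj
    obtain ⟨D, hDN, hDf⟩ := grd_nat C n w (q ^ j) (bas C M.ψ) N (x ^ j) hq2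
      (bas_det _ _ M.ψ_det)
      (by
        rw [Units.val_pow_eq_pow_val]
        push_cast
        exact hxjψ j) hN1 hN2
      (by
        rw [Units.val_pow_eq_pow_val]
        push_cast
        exact hxjN j)
    refine ⟨C, inferInstance, inferInstance, N, D, ?_, hN1, hN2, ?_, hDN⟩
    · refine mem_span_of_forms
        (I := {f : MvPolynomial (Fin n × Fin n) ℚ_[p₀] // ∀ σ ∈ H, ev (mat (M.ρ p₀) σ) f = 0})
        (fun f i j => ev (1 : Matrix (Fin n) (Fin n) ℚ_[p₀]) (MvPolynomial.pderiv (i, j) f.1))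
        (LieZ (H.map (M.ρ p₀))) ?_ C _ ?_
      · intro A hA f hf
        exact hA ⟨f, fun σ hσ => hf (M.ρ p₀ σ) (Subgroup.mem_map_of_mem _ hσ)⟩
      · intro f
        exact hNH f.1 f.2
    · refine mem_span_of_forms
        (I := {f : MvPolynomial (Fin n × Fin n) ℚ_[p₀] // ∀ σ ∈ H, ev (mat (M.ρ p₀) σ) f = 0})
        (fun f i j => ev (1 : Matrix (Fin n) (Fin n) ℚ_[p₀]) (MvPolynomial.pderiv (i, j) f.1))
        (LieZ (H.map (M.ρ p₀))) ?_ C _ ?_
      · intro A hA f hf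
        exact hA ⟨f, fun σ hσ => hf (M.ρ p₀ σ) (Subgroup.mem_map_of_mem _ hσ)⟩
      · intro f
        have hevC : ∀ (g : Matrix (Fin n) (Fin n) C) (f : MvPolynomial (Fin n × Fin n) ℚ_[p₀]),
            ev (K₀ := C) g (MvPolynomial.map (algebraMap ℚ_[p₀] C) f) = ev (K₀ := ℚ_[p₀]) g f := by
          intro g f
          exact MvPolynomial.aeval_map_algebraMap C _ f
        have h1 := hDf (MvPolynomial.map (algebraMap ℚ_[p₀] C) f.1) (by
          intro m
          rw [hevC]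
          have h2 := hpow m f.1 (by
            intro y hy
            obtain ⟨σ, hσ, rfl⟩ := Subgroup.mem_map.mp hy
            exact f.2 σ hσ)
          rw [Units.val_pow_eq_pow_val] at h2
          exact h2)
        rw [← h1]
        refine Finset.sum_congr rfl fun i _ => Finset.sum_congr rfl fun j _ => ?_
        rw [MvPolynomial.pderiv_map, hevC]
        have h3 := ev_map (algebraMap ℚ_[p₀] C) (fun _ => rfl)
          (1 : Matrix (Fin n) (Fin n) ℚ_[p₀]) (MvPolynomial.pderiv (i, j) f.1)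
        rw [Matrix.map_one _ (map_zero _) (map_one _)] at h3
        rw [h3]

end MT
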